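import Mathlib
import Pool.Agent.Lib.ZFCForcing.Defs

set_option autoImplicit false

namespace Pool.Agent.Lib.MP_0a8963_lc

open Pool.Agent.Lib.ZFCForcing

/-- The subsets of `A` that are first-order definable over `(A, ∈)` with parameters from `A`. -/
noncomputable def Def (A : ZFSet.{0}) : ZFSet.{0} :=
  A.powerset.sep fun a => ∃ (n : ℕ) (φ : Fm (n + 1)) (v : Fin n → ZFSet.{0}),
    (∀ i, v i ∈ A) ∧ a = A.sep fun x => Sat A φ (Fin.cons x v)

/-- The constructible hierarchy: `L o` is the union of the `Def (L a)` for `a < o`. -/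
noncomputable def L (o : Ordinal.{0}) : ZFSet.{0} :=
  ZFSet.iUnion fun a : Set.Iio o => Def (L a)
termination_by o
decreasing_by exact a.2

/-- `(A, ∈)` is an elementary substructure of `(B, ∈)`. -/
def Elem (A B : ZFSet.{0}) : Prop :=
  A ⊆ B ∧ ∀ (n : ℕ) (φ : Fm n) (v : Fin n → ZFSet.{0}), (∀ i, v i ∈ A) →
    (Sat A φ v ↔ Sat B φ v)

/-- The binary relation defined in `(M, ∈)` by `ψ` with parameters `v`. -/
noncomputable def rel (M : ZFSet.{0}) {k : ℕ} (ψ : Fm (k + 2)) (v : Fin k → ZFSet.{0}) :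
    ZFSet.{0} :=
  (M.prod M).sep fun z => ∃ x y, z = ZFSet.pair x y ∧ Sat M ψ (Fin.cons x (Fin.cons y v))

end Pool.Agent.Lib.MP_0a8963_lc
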