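import Mathlib
import Pool.Agent.Lib.MP_0a8963_lc.Defs

set_option autoImplicit false

namespace Pool.Agent.Lib.MP_0a8963_lc

open Pool.Agent.Lib.ZFCForcing Cardinal Ordinal Set

open Classical in
/-- The transitive collapse of a set of ordinals: `col Z ξ` is the order type of `Z ∩ ξ`. -/
noncomputable def col (Z : Set Ordinal.{0}) (ξ : Ordinal.{0}) : Ordinal.{0} :=
  ⨆ ζ : Set.Iio ξ, if ζ.1 ∈ Z then col Z ζ.1 + 1 else 0
termination_by ξ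
decreasing_by exact ζ.2

theorem lt_col_iff {Z : Set Ordinal.{0}} {ξ η : Ordinal.{0}} :
    η < col Z ξ ↔ ∃ ζ ∈ Z, ζ < ξ ∧ col Z ζ = η := by
  induction ξ using WellFoundedLT.induction generalizing η with
  | ind ξ ih =>
    rw [col, Ordinal.lt_iSup_iff]
    constructor
    · rintro ⟨⟨ζ, hζ⟩, h⟩
      by_cases hZ : ζ ∈ Z
      · simp only [hZ, if_true] at h
        rcases (Order.lt_add_one_iff.1 h).lt_or_eq with h' | h'
        · obtain ⟨ζ', h1, h2, h3⟩ := (ih ζ hζ).1 h'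
          exact ⟨ζ', h1, h2.trans hζ, h3⟩
        · exact ⟨ζ, hZ, hζ, h'.symm⟩
      · simp [hZ] at h
    · rintro ⟨ζ, hZ, hζ, rfl⟩
      refine ⟨⟨ζ, hζ⟩, ?_⟩
      simp only [hZ, if_true]
      exact Order.lt_add_one_iff.2 le_rfl

theorem col_lt_col {Z : Set Ordinal.{0}} {ζ ξ : Ordinal.{0}} (hζ : ζ ∈ Z) (h : ζ < ξ) :
    col Z ζ < col Z ξ := lt_col_iff.2 ⟨ζ, hζ, h, rfl⟩

theorem col_mono (Z : Set Ordinal.{0}) : Monotone (col Z) := fun _ _ hab =>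
  le_of_forall_lt fun _ hc => by
    obtain ⟨ζ, h1, h2, h3⟩ := lt_col_iff.1 hc
    exact lt_col_iff.2 ⟨ζ, h1, h2.trans_le hab, h3⟩

theorem col_lt_col_iff {Z : Set Ordinal.{0}} {ζ ξ : Ordinal.{0}} (hζ : ζ ∈ Z) :
    col Z ζ < col Z ξ ↔ ζ < ξ :=
  ⟨fun h => lt_of_not_ge fun h' => absurd (col_mono Z h') (not_le.2 h), col_lt_col hζ⟩

theorem col_injOn (Z : Set Ordinal.{0}) : Set.InjOn (col Z) Z := by
  intro a ha b hb h
  rcases lt_trichotomy a b with h' | h' | h'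
  · exact absurd h (col_lt_col ha h').ne
  · exact h'
  · exact absurd h (col_lt_col hb h').ne'

theorem col_congr {Z Z' : Set Ordinal.{0}} {ξ : Ordinal.{0}}
    (h : ∀ ζ < ξ, (ζ ∈ Z ↔ ζ ∈ Z')) : col Z ξ = col Z' ξ := by
  induction ξ using WellFoundedLT.induction with
  | ind ξ ih =>
    refine eq_of_forall_lt_iff fun η => ?_
    rw [lt_col_iff, lt_col_iff]
    constructor
    · rintro ⟨ζ, h1, h2, h3⟩
      exact ⟨ζ, (h ζ h2).1 h1, h2, (ih ζ h2 fun x hx => h x (hx.trans h2)).symm.trans h3⟩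
    · rintro ⟨ζ, h1, h2, h3⟩
      exact ⟨ζ, (h ζ h2).2 h1, h2, (ih ζ h2 fun x hx => h x (hx.trans h2)).trans h3⟩

theorem col_eq_self {Z : Set Ordinal.{0}} {ξ : Ordinal.{0}} (h : ∀ ζ < ξ, ζ ∈ Z) :
    col Z ξ = ξ := by
  induction ξ using WellFoundedLT.induction with
  | ind ξ ih =>
    refine eq_of_forall_lt_iff fun η => ?_
    rw [lt_col_iff]
    constructor
    · rintro ⟨ζ, -, h2, h3⟩
      rw [ih ζ h2 fun x hx => h x (hx.trans h2)] at h3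
      exact h3 ▸ h2
    · intro hη
      exact ⟨η, h η hη, hη, ih η hη fun x hx => h x (hx.trans hη)⟩

theorem col_col {Z W : Set Ordinal.{0}} (h : Z ⊆ W) {ξ : Ordinal.{0}} (hξ : ξ ∈ W) :
    col (col W '' Z) (col W ξ) = col Z ξ := by
  induction ξ using WellFoundedLT.induction with
  | ind ξ ih =>
    refine eq_of_forall_lt_iff fun η => ?_
    rw [lt_col_iff, lt_col_iff]
    constructor
    · rintro ⟨_, ⟨ζ, hζ, rfl⟩, h2, h3⟩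
      have h4 := (col_lt_col_iff (h hζ)).1 h2
      exact ⟨ζ, hζ, h4, (ih ζ h4 (h hζ)).symm.trans h3⟩
    · rintro ⟨ζ, h1, h2, h3⟩
      exact ⟨col W ζ, ⟨ζ, h1, rfl⟩, col_lt_col (h h1) h2, (ih ζ h2 (h h1)).trans h3⟩

theorem card_col_le (Z : Set Ordinal.{0}) (ξ : Ordinal.{0}) :
    Cardinal.lift.{1} (col Z ξ).card ≤ #Z := by
  rw [← Cardinal.mk_Iio_ordinal]
  refine le_trans (Cardinal.mk_le_mk_of_subset ?_) (Cardinal.mk_image_le (f := col Z) (s := Z))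
  intro η hη
  obtain ⟨ζ, h1, -, h3⟩ := lt_col_iff.1 hη
  exact ⟨ζ, h1, h3⟩

/-- The abstract hull system that `V = L` provides. -/
structure HullSys where
  H : Set Ordinal.{0} → Set Ordinal.{0}
  Sm : Ordinal.{0} → Ordinal.{0} → Ordinal.{0} → Prop
  Ds : ℕ → Ordinal.{0} → List Ordinal.{0} → Set Ordinal.{0}
  sub : ∀ A, A ⊆ H A
  mono : ∀ A B, A ⊆ B → H A ⊆ H B
  idem : ∀ A, H (H A) ⊆ H A
  fin : ∀ A ξ, ξ ∈ H A → ∃ l : List Ordinal.{0}, (∀ a ∈ l, a ∈ A) ∧ ξ ∈ H {a | a ∈ l}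
  card : ∀ A, #(H A) ≤ max #A ℵ₀
  inv : ∀ Z A, H Z ⊆ Z → A ⊆ Z → H (col Z '' A) = col Z '' H A
  sm_tr : ∀ Z θ μ κ, H Z ⊆ Z → θ ∈ Z → μ ∈ Z → κ ∈ Z → μ < θ → κ < θ →
    (Sm θ μ κ ↔ Sm (col Z θ) (col Z μ) (col Z κ))
  sm_mono : ∀ θ θ' μ κ, Sm θ μ κ → θ ≤ θ' → Sm θ' μ κ
  sm_card : ∀ θ μ κ, Sm θ μ κ → κ.card ≤ max μ.card ℵ₀
  sm_ex : ∀ μ κ, ω ≤ μ → κ.card ≤ μ.card → ∃ θ, Sm θ μ κ
  ds_ex : ∀ (a : Set Ordinal.{0}) (κ : Ordinal.{0}), a ⊆ Set.Iio κ →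
    ∃ s θ F, κ < θ ∧ (∀ o ∈ F, o < θ) ∧ a = Ds s θ F
  ds_tr : ∀ Z s θ F β, H Z ⊆ Z → θ ∈ Z → (∀ o ∈ F, o ∈ Z) → β ∈ Z → β < θ →
    (β ∈ Ds s θ F ↔ col Z β ∈ Ds s (col Z θ) (F.map (col Z)))

end Pool.Agent.Lib.MP_0a8963_lc
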