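import Mathlib
import Pool.Agent.Lib.MP_0a8963_lc.Defs

set_option autoImplicit false

namespace Pool.Agent.Lib.MP_0a8963_lc

open Pool.Agent.Lib.ZFCForcing Cardinal Ordinal Set

/-- Disjunction. -/
def orF {n : ℕ} (φ ψ : Fm n) : Fm n := .neg (.and (.neg φ) (.neg ψ))

/-- Implication. -/
def impF {n : ℕ} (φ ψ : Fm n) : Fm n := .neg (.and φ (.neg ψ))

/-- Equivalence. -/
def iffF {n : ℕ} (φ ψ : Fm n) : Fm n := .and (impF φ ψ) (impF ψ φ)

/-- Existential quantifier; the bound variable has index `0`. -/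
def exF {n : ℕ} (φ : Fm (n + 1)) : Fm n := .neg (.all (.neg φ))

/-- `z = {a, b}`. -/
def upF {n : ℕ} (z a b : Fin n) : Fm n :=
  .all (iffF (.mem 0 z.succ) (orF (.eq 0 a.succ) (.eq 0 b.succ)))

/-- The ordered pair `{{x}, {x, y}}` is an element of `f`. -/
def appF {n : ℕ} (f x y : Fin n) : Fm n :=
  exF (exF (exF (.and (.mem 0 f.succ.succ.succ) (.and (upF 0 1 2)
    (.and (upF 1 x.succ.succ.succ x.succ.succ.succ) (upF 2 x.succ.succ.succ y.succ.succ.succ))))))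

/-- The relation `f` is single-valued. -/
def funcF {n : ℕ} (f : Fin n) : Fm n :=
  .all (.all (.all (impF (.and (appF f.succ.succ.succ 2 1) (appF f.succ.succ.succ 2 0))
    (.eq 1 0))))

/-- `|Y| ≤ |X|`: some function maps a subset of `X` onto `Y`. -/
def geF {n : ℕ} (X Y : Fin n) : Fm n :=
  exF (.and (funcF 0) (.all (impF (.mem 0 Y.succ.succ)
    (exF (.and (.mem 0 X.succ.succ.succ) (appF 2 0 1))))))

theorem mem_L {o : Ordinal.{0}} {x : ZFSet.{0}} : x ∈ L o ↔ ∃ a < o, x ∈ Def (L a) := by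
  rw [L, ZFSet.mem_iUnion]
  exact ⟨fun ⟨a, h⟩ => ⟨a.1, a.2, h⟩, fun ⟨a, h1, h2⟩ => ⟨⟨a, h1⟩, h2⟩⟩

theorem mem_Def {A x : ZFSet.{0}} : x ∈ Def A ↔ ∃ (n : ℕ) (φ : Fm (n + 1))
    (v : Fin n → ZFSet.{0}), (∀ i, v i ∈ A) ∧ x = A.sep fun y => Sat A φ (Fin.cons y v) := by
  rw [Def, ZFSet.mem_sep, ZFSet.mem_powerset]
  refine ⟨fun h => h.2, fun h => ⟨?_, h⟩⟩
  obtain ⟨n, φ, v, -, rfl⟩ := h
  exact ZFSet.sep_subset

theorem subset_of_mem_Def {A x : ZFSet.{0}} (h : x ∈ Def A) : x ⊆ A :=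
  ZFSet.mem_powerset.1 (ZFSet.mem_sep.1 h).1

theorem L_mono {a b : Ordinal.{0}} (h : a ≤ b) : L a ⊆ L b := fun _ hx =>
  let ⟨c, h1, h2⟩ := mem_L.1 hx
  mem_L.2 ⟨c, h1.trans_le h, h2⟩

theorem L_trans (o : Ordinal.{0}) : (L o).IsTransitive := by
  intro x hx
  obtain ⟨a, h1, h2⟩ := mem_L.1 hx
  exact fun y hy => L_mono h1.le (subset_of_mem_Def h2 hy)

theorem sep_mem_L {a b : Ordinal.{0}} (h : a < b) {n : ℕ} (φ : Fm (n + 1))
    (v : Fin n → ZFSet.{0}) (hv : ∀ i, v i ∈ L a) :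
    (L a).sep (fun x => Sat (L a) φ (Fin.cons x v)) ∈ L b :=
  mem_L.2 ⟨a, h, mem_Def.2 ⟨n, φ, v, hv, rfl⟩⟩

theorem L_mem_L {a b : Ordinal.{0}} : L a ∈ L b ↔ a < b := by
  constructor
  · intro h
    by_contra hc
    exact ZFSet.mem_irrefl _ (L_mono (not_lt.1 hc) h)
  · intro h
    have h1 := sep_mem_L h (n := 0) (.eq 0 0) Fin.elim0 fun i => i.elim0
    rwa [show (L a).sep (fun x => Sat (L a) (.eq 0 0 : Fm 1) (Fin.cons x Fin.elim0)) = L a from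
      ZFSet.ext fun z => ZFSet.mem_sep.trans ⟨fun h => h.1, fun h => ⟨h, rfl⟩⟩] at h1

theorem L_injective : Function.Injective L := by
  intro a b h
  rcases lt_trichotomy a b with h1 | h1 | h1
  · exact (ZFSet.mem_irrefl _ (h ▸ L_mem_L.2 h1)).elim
  · exact h1
  · exact (ZFSet.mem_irrefl _ (h ▸ L_mem_L.2 h1)).elim

theorem sat_orF (M : ZFSet.{0}) {n : ℕ} (φ ψ : Fm n) (v : Fin n → ZFSet.{0}) :
    Sat M (orF φ ψ) v ↔ Sat M φ v ∨ Sat M ψ v := by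
  simp only [orF, Sat]
  tauto

theorem sat_impF (M : ZFSet.{0}) {n : ℕ} (φ ψ : Fm n) (v : Fin n → ZFSet.{0}) :
    Sat M (impF φ ψ) v ↔ (Sat M φ v → Sat M ψ v) := by
  simp only [impF, Sat]
  tauto

theorem sat_iffF (M : ZFSet.{0}) {n : ℕ} (φ ψ : Fm n) (v : Fin n → ZFSet.{0}) :
    Sat M (iffF φ ψ) v ↔ (Sat M φ v ↔ Sat M ψ v) := by
  simp only [iffF, Sat, sat_impF]
  tauto

theorem sat_exF (M : ZFSet.{0}) {n : ℕ} (φ : Fm (n + 1)) (v : Fin n → ZFSet.{0}) :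
    Sat M (exF φ) v ↔ ∃ x ∈ M, Sat M φ (Fin.cons x v) := by
  simp only [exF, Sat]
  push Not
  rfl

theorem upair_mem_L {a b : Ordinal.{0}} (h : a < b) {x y : ZFSet.{0}} (hx : x ∈ L a)
    (hy : y ∈ L a) : ({x, y} : ZFSet.{0}) ∈ L b := by
  have h1 := sep_mem_L h (n := 2) (orF (.eq 0 1) (.eq 0 2)) ![x, y] (by
    intro i
    fin_cases i
    · exact hx
    · exact hy)
  rwa [show (L a).sep (fun z => Sat (L a) (orF (.eq 0 1) (.eq 0 2) : Fm 3) (Fin.cons z ![x, y])) =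
    {x, y} from ZFSet.ext fun z => ?_] at h1
  rw [ZFSet.mem_sep, sat_orF, ZFSet.mem_pair]
  refine ⟨fun h => h.2, fun h => ⟨?_, h⟩⟩
  rcases h with rfl | rfl
  · exact hx
  · exact hy

theorem exists_lt_mem_L {o : Ordinal.{0}} (ho : Order.IsSuccLimit o) {x : ZFSet.{0}}
    (hx : x ∈ L o) : ∃ a < o, x ∈ L a := by
  obtain ⟨a, h1, h2⟩ := mem_L.1 hx
  exact ⟨a + 1, ho.add_one_lt h1, mem_L.2 ⟨a, lt_add_one a, h2⟩⟩

theorem upair_mem_L' {o : Ordinal.{0}} (ho : Order.IsSuccLimit o) {x y : ZFSet.{0}}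
    (hx : x ∈ L o) (hy : y ∈ L o) : ({x, y} : ZFSet.{0}) ∈ L o := by
  obtain ⟨a, h1, h2⟩ := exists_lt_mem_L ho hx
  obtain ⟨b, h3, h4⟩ := exists_lt_mem_L ho hy
  exact upair_mem_L (max_lt h1 h3) (L_mono (le_max_left _ _) h2) (L_mono (le_max_right _ _) h4)

theorem pair_mem_L {o : Ordinal.{0}} (ho : Order.IsSuccLimit o) {x y : ZFSet.{0}}
    (hx : x ∈ L o) (hy : y ∈ L o) : ZFSet.pair x y ∈ L o :=
  upair_mem_L' ho (ZFSet.pair_eq_singleton x ▸ upair_mem_L' ho hx hx) (upair_mem_L' ho hx hy)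

theorem card_le_card_L (o : Ordinal.{0}) : o.card ≤ (L o).card := by
  rw [← Cardinal.lift_le.{1}, ← ZFSet.cardinalMk_coe_sort, ← Cardinal.mk_Iio_ordinal]
  exact mk_le_of_injective (f := fun a : Set.Iio o => (⟨L a.1, L_mem_L.2 a.2⟩ : L o))
    fun a b h => Subtype.ext (L_injective (congrArg Subtype.val h))

/-- codes of formulas -/
def fmCode : {n : ℕ} → Fm n → ℕ
  | _, Fm.mem i j => Nat.pair 0 (Nat.pair i j)
  | _, Fm.eq i j => Nat.pair 1 (Nat.pair i j)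
  | _, Fm.neg φ => Nat.pair 2 (fmCode φ)
  | _, Fm.and φ ψ => Nat.pair 3 (Nat.pair (fmCode φ) (fmCode ψ))
  | _, Fm.all φ => Nat.pair 4 (fmCode φ)

theorem fmCode_inj {n : ℕ} (φ : Fm n) : ∀ ψ : Fm n, fmCode φ = fmCode ψ → φ = ψ := by
  induction φ with
  | mem i j => intro ψ h; cases ψ <;> simp_all [fmCode, Nat.pair_eq_pair, Fin.ext_iff]
  | eq i j => intro ψ h; cases ψ <;> simp_all [fmCode, Nat.pair_eq_pair, Fin.ext_iff]
  | neg φ ih =>
    intro ψ h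
    cases ψ <;> simp [fmCode, Nat.pair_eq_pair] at h ⊢
    exact ih _ h
  | and φ φ' ih ih' =>
    intro ψ h
    cases ψ <;> simp [fmCode, Nat.pair_eq_pair] at h ⊢
    exact ⟨ih _ h.1, ih' _ h.2⟩
  | all φ ih =>
    intro ψ h
    cases ψ <;> simp [fmCode, Nat.pair_eq_pair] at h ⊢
    exact ih _ h

instance countableFm (n : ℕ) : Countable (Fm n) :=
  Function.Injective.countable (f := fmCode) fun φ ψ h => fmCode_inj φ ψ h

theorem card_Def_le (A : ZFSet.{0}) : (Def A).card ≤ max A.card ℵ₀ := by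
  let f : (Σ n : ℕ, Fm (n + 1) × (Fin n → Shrink.{0} A)) → ZFSet.{0} := fun s =>
    A.sep fun y => Sat A s.2.1 (Fin.cons y fun i => ((equivShrink A).symm (s.2.2 i)).1)
  have h1 : Def A ⊆ ZFSet.range f := by
    intro x hx
    obtain ⟨n, φ, v, hv, rfl⟩ := mem_Def.1 hx
    exact ZFSet.mem_range.2 ⟨⟨n, φ, fun i => equivShrink A ⟨v i, hv i⟩⟩, by simp [f]⟩
  have h2 := ZFSet.lift_card_range_le (f := f)
  rw [Cardinal.lift_id, Cardinal.lift_id] at h2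
  refine (ZFSet.card_mono h1).trans (h2.trans ?_)
  have h3 : ℵ₀ ≤ max A.card ℵ₀ := le_max_right _ _
  rw [mk_sigma]
  refine (sum_le_mk_mul_iSup _).trans ((mul_le_mul' (mk_le_aleph0.trans h3)
    (ciSup_le' fun n => ?_)).trans (mul_eq_self h3).le)
  rw [mk_prod, Cardinal.lift_id, Cardinal.lift_id]
  refine (mul_le_mul' (mk_le_aleph0.trans h3) ?_).trans (mul_eq_self h3).le
  rw [← power_def, mk_fin]
  exact (power_le_power_right (le_max_left _ _)).trans (power_nat_le h3)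

theorem card_L_le (o : Ordinal.{0}) : (L o).card ≤ max o.card ℵ₀ := by
  induction o using WellFoundedLT.induction with
  | ind o ih =>
    have h3 : ℵ₀ ≤ max o.card ℵ₀ := le_max_right _ _
    rw [L, ← Cardinal.lift_le.{1}]
    refine ZFSet.lift_card_iUnion_le_sum_card.trans ?_
    refine (sum_le_lift_mk_mul_iSup_lift _).trans ?_
    rw [Cardinal.mk_Iio_ordinal, Cardinal.lift_lift, ← mul_eq_self h3, Cardinal.lift_mul]
    refine mul_le_mul' (Cardinal.lift_le.2 (le_max_left _ _)) (ciSup_le' fun a => ?_)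
    rw [Cardinal.lift_le]
    exact (card_Def_le _).trans (max_le ((ih a.1 a.2).trans
      (max_le_max (card_le_card a.2.le) le_rfl)) h3)

/-- Renaming of variables. -/
def ren : {n m : ℕ} → (Fin n → Fin m) → Fm n → Fm m
  | _, _, f, .mem i j => .mem (f i) (f j)
  | _, _, f, .eq i j => .eq (f i) (f j)
  | _, _, f, .neg φ => .neg (ren f φ)
  | _, _, f, .and φ ψ => .and (ren f φ) (ren f ψ)
  | _, _, f, .all φ => .all (ren (Fin.cons 0 fun i => (f i).succ) φ)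

theorem sat_ren (M : ZFSet.{0}) {n m : ℕ} (f : Fin n → Fin m) (φ : Fm n)
    (v : Fin m → ZFSet.{0}) : Sat M (ren f φ) v ↔ Sat M φ (fun i => v (f i)) := by
  induction φ generalizing m with
  | mem i j => rfl
  | eq i j => rfl
  | neg φ ih => exact not_congr (ih f v)
  | and φ ψ ih1 ih2 => exact and_congr (ih1 f v) (ih2 f v)
  | all φ ih =>
    refine forall₂_congr fun x _ => (ih _ _).trans ?_
    rw [show (fun i => (Fin.cons x v : Fin (m + 1) → ZFSet.{0})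
      ((Fin.cons 0 fun i => (f i).succ : Fin _ → Fin (m + 1)) i)) = Fin.cons x fun i => v (f i) from
      funext fun i => Fin.cases rfl (fun _ => rfl) i]

/-- `f` is single-valued. -/
def Func (f : ZFSet.{0}) : Prop :=
  ∀ x y y', ZFSet.pair x y ∈ f → ZFSet.pair x y' ∈ f → y = y'

/-- `f` maps a subset of `X` onto `Y`. -/
def Onto (f X Y : ZFSet.{0}) : Prop := Func f ∧ ∀ y ∈ Y, ∃ x ∈ X, ZFSet.pair x y ∈ f

theorem mem_of_pair_mem {M f x y : ZFSet.{0}} (hM : M.IsTransitive) (hf : f ∈ M)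
    (h : ZFSet.pair x y ∈ f) : x ∈ M ∧ y ∈ M := by
  have h1 : ({x, y} : ZFSet.{0}) ∈ M := hM _ (hM _ hf h) (ZFSet.mem_pair.2 (Or.inr rfl))
  exact ⟨hM _ h1 (ZFSet.mem_pair.2 (Or.inl rfl)), hM _ h1 (ZFSet.mem_pair.2 (Or.inr rfl))⟩

theorem cons_mem {M x : ZFSet.{0}} {n : ℕ} {v : Fin n → ZFSet.{0}} (hx : x ∈ M)
    (hv : ∀ i, v i ∈ M) : ∀ i, (Fin.cons x v : Fin (n + 1) → ZFSet.{0}) i ∈ M :=
  fun i => Fin.cases hx hv i

theorem sat_upF {M : ZFSet.{0}} (hM : M.IsTransitive) {n : ℕ} (z a b : Fin n)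
    {v : Fin n → ZFSet.{0}} (hv : ∀ i, v i ∈ M) : Sat M (upF z a b) v ↔ v z = {v a, v b} := by
  have h1 : Sat M (upF z a b) v ↔ ∀ w ∈ M, (w ∈ v z ↔ w = v a ∨ w = v b) := by
    simp only [upF, Sat, sat_iffF, sat_orF, Fin.cons_zero, Fin.cons_succ]
  rw [h1]
  constructor
  · intro h
    ext w
    rw [ZFSet.mem_pair]
    refine ⟨fun h2 => (h w (hM _ (hv z) h2)).1 h2, fun h2 => (h w ?_).2 h2⟩
    rcases h2 with rfl | rfl
    · exact hv a
    · exact hv b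
  · intro h w _
    rw [h, ZFSet.mem_pair]

theorem sat_appF {M : ZFSet.{0}} (hM : M.IsTransitive) {n : ℕ} (f x y : Fin n)
    {v : Fin n → ZFSet.{0}} (hv : ∀ i, v i ∈ M) :
    Sat M (appF f x y) v ↔ ZFSet.pair (v x) (v y) ∈ v f := by
  simp only [appF, sat_exF, Sat]
  constructor
  · rintro ⟨t, ht, s, hs, p, hp, h1, h2, h3, h4⟩
    have hw := cons_mem hp (cons_mem hs (cons_mem ht hv))
    have h5 : p = {s, t} := (sat_upF hM _ _ _ hw).1 h2
    have h6 : s = {v x, v x} := (sat_upF hM _ _ _ hw).1 h3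
    have h7 : t = {v x, v y} := (sat_upF hM _ _ _ hw).1 h4
    have h8 : p ∈ v f := h1
    rwa [h5, h6, h7, ZFSet.pair_eq_singleton] at h8
  · intro h
    have hp := hM _ (hv f) h
    have ht : ({v x, v y} : ZFSet.{0}) ∈ M := hM _ hp (ZFSet.mem_pair.2 (Or.inr rfl))
    have hs : ({v x} : ZFSet.{0}) ∈ M := hM _ hp (ZFSet.mem_pair.2 (Or.inl rfl))
    have hw := cons_mem hp (cons_mem hs (cons_mem ht hv))
    exact ⟨_, ht, _, hs, _, hp, h, (sat_upF hM _ _ _ hw).2 rfl,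
      (sat_upF hM _ _ _ hw).2 (ZFSet.pair_eq_singleton _).symm, (sat_upF hM _ _ _ hw).2 rfl⟩

theorem sat_funcF {M : ZFSet.{0}} (hM : M.IsTransitive) {n : ℕ} (f : Fin n)
    {v : Fin n → ZFSet.{0}} (hv : ∀ i, v i ∈ M) : Sat M (funcF f) v ↔ Func (v f) := by
  simp only [funcF, sat_impF, Sat]
  constructor
  · intro h x y y' h1 h2
    obtain ⟨hx, hy⟩ := mem_of_pair_mem hM (hv f) h1
    obtain ⟨-, hy'⟩ := mem_of_pair_mem hM (hv f) h2
    have hw := cons_mem hy' (cons_mem hy (cons_mem hx hv))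
    exact h x hx y hy y' hy' ⟨(sat_appF hM _ _ _ hw).2 h1, (sat_appF hM _ _ _ hw).2 h2⟩
  · intro h x hx y hy y' hy' ⟨h1, h2⟩
    have hw := cons_mem hy' (cons_mem hy (cons_mem hx hv))
    exact h x y y' ((sat_appF hM _ _ _ hw).1 h1) ((sat_appF hM _ _ _ hw).1 h2)

theorem sat_geF {M : ZFSet.{0}} (hM : M.IsTransitive) {n : ℕ} (X Y : Fin n)
    {v : Fin n → ZFSet.{0}} (hv : ∀ i, v i ∈ M) :
    Sat M (geF X Y) v ↔ ∃ f ∈ M, Onto f (v X) (v Y) := by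
  simp only [geF, sat_exF, sat_impF, Sat]
  refine exists_congr fun f => and_congr_right fun hf =>
    and_congr (sat_funcF hM _ (cons_mem hf hv)) ⟨fun h y hy => ?_, fun h y hy hyY => ?_⟩
  · have hy' := hM _ (hv Y) hy
    obtain ⟨x, hx, h1, h2⟩ := h y hy' hy
    exact ⟨x, h1, (sat_appF hM _ _ _ (cons_mem hx (cons_mem hy' (cons_mem hf hv)))).1 h2⟩
  · obtain ⟨x, h1, h2⟩ := h y hyY
    have hx := hM _ (hv X) h1
    exact ⟨x, hx, h1, (sat_appF hM _ _ _ (cons_mem hx (cons_mem hy (cons_mem hf hv)))).2 h2⟩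

theorem Onto.card_le {f X Y : ZFSet.{0}} (h : Onto f X Y) : Y.card ≤ X.card := by
  rw [← Cardinal.lift_le.{1}, ← ZFSet.cardinalMk_coe_sort, ← ZFSet.cardinalMk_coe_sort]
  choose g h1 h2 using h.2
  exact mk_le_of_injective (f := fun y : Y => (⟨g y.1 y.2, h1 _ _⟩ : X)) fun y y' e =>
    Subtype.ext (h.1 _ _ _ (h2 y.1 y.2) (by
      rw [show g y.1 y.2 = g y'.1 y'.2 from congrArg Subtype.val e]
      exact h2 y'.1 y'.2))

theorem exists_onto {X Y : ZFSet.{0}} (h : Y.card ≤ X.card) :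
    ∃ f, f ⊆ X.prod Y ∧ Onto f X Y := by
  rw [← Cardinal.lift_le.{1}, ← ZFSet.cardinalMk_coe_sort, ← ZFSet.cardinalMk_coe_sort] at h
  obtain ⟨e⟩ := (le_def _ _).1 h
  refine ⟨(X.prod Y).sep fun p => ∃ y : Y, p = ZFSet.pair (e y).1 y.1, ZFSet.sep_subset,
    fun x y y' h1 h2 => ?_, fun y hy => ⟨(e ⟨y, hy⟩).1, (e _).2,
      ZFSet.mem_sep.2 ⟨ZFSet.pair_mem_prod.2 ⟨(e _).2, hy⟩, ⟨y, hy⟩, rfl⟩⟩⟩
  obtain ⟨-, a, h3⟩ := ZFSet.mem_sep.1 h1
  obtain ⟨-, b, h4⟩ := ZFSet.mem_sep.1 h2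
  obtain ⟨h5, rfl⟩ := ZFSet.pair_inj.1 h3
  obtain ⟨h6, rfl⟩ := ZFSet.pair_inj.1 h4
  rw [e.injective (Subtype.ext (h5.symm.trans h6))]

end Pool.Agent.Lib.MP_0a8963_lc
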