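import Mathlib
import Pool.Agent.Lib.MP_0a8963_lc.LBasic
import Pool.Agent.Lib.MP_0a8963_lc.Col

set_option autoImplicit false

namespace Pool.Agent.Lib.MP_0a8963_lc

open Pool.Agent.Lib.ZFCForcing Cardinal Ordinal Set

/-- A numerical code of a formula. -/
def fcode : {n : ℕ} → Fm n → ℕ
  | _, Fm.mem i j => Nat.pair 0 (Nat.pair i j)
  | _, Fm.eq i j => Nat.pair 1 (Nat.pair i j)
  | _, Fm.neg φ => Nat.pair 2 (fcode φ)
  | _, Fm.and φ ψ => Nat.pair 3 (Nat.pair (fcode φ) (fcode ψ))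
  | _, Fm.all φ => Nat.pair 4 (fcode φ)

theorem fcode_inj {n : ℕ} (φ : Fm n) : ∀ ψ : Fm n, fcode φ = fcode ψ → φ = ψ := by
  induction φ with
  | mem i j => intro ψ h; cases ψ <;> simp_all [fcode, Nat.pair_eq_pair, Fin.ext_iff]
  | eq i j => intro ψ h; cases ψ <;> simp_all [fcode, Nat.pair_eq_pair, Fin.ext_iff]
  | neg φ ih =>
    intro ψ h
    cases ψ <;> simp [fcode, Nat.pair_eq_pair] at h ⊢
    exact ih _ h
  | and φ φ' ih ih' =>
    intro ψ h
    cases ψ <;> simp [fcode, Nat.pair_eq_pair] at h ⊢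
    exact ⟨ih _ h.1, ih' _ h.2⟩
  | all φ ih =>
    intro ψ h
    cases ψ <;> simp [fcode, Nat.pair_eq_pair] at h ⊢
    exact ih _ h

/-- Terms naming constructible sets. -/
inductive Tm : Type 1
  | node (ξ : Ordinal.{0}) (n : ℕ) (φ : Fm (n + 1)) (a : Fin n → Tm) : Tm

namespace Tm

/-- The level of a term. -/
def rk : Tm → Ordinal.{0}
  | node ξ _ _ _ => ξ

/-- The value of a term. -/
noncomputable def val : Tm → ZFSet.{0}
  | node ξ _ φ a => (L ξ).sep fun x => Sat (L ξ) φ (Fin.cons x fun i => val (a i))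

/-- Moving the ordinals of a term. -/
def map (f : Ordinal.{0} → Ordinal.{0}) : Tm → Tm
  | node ξ n φ a => node (f ξ) n φ fun i => map f (a i)

/-- The ordinals of a term. -/
def ords : Tm → List Ordinal.{0}
  | node ξ _ _ a => ξ :: (List.ofFn fun i => ords (a i)).flatten

/-- The shape of a term. -/
def code : Tm → ℕ
  | node _ n φ a => Nat.pair n (Nat.pair (fcode φ)
      (Encodable.encode (List.ofFn fun i => (code (a i), (ords (a i)).length))))

/-- The levels decrease along the term and start below `θ`. -/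
def Below : Ordinal.{0} → Tm → Prop
  | θ, node ξ _ _ a => ξ < θ ∧ ∀ i, Below ξ (a i)

/-- All ordinals of the term lie in `Z`. -/
def In (Z : Set Ordinal.{0}) (t : Tm) : Prop := ∀ o ∈ t.ords, o ∈ Z

/-- Well-formed terms. -/
def Wf (t : Tm) : Prop := ∃ θ, Below θ t

theorem In_node {Z : Set Ordinal.{0}} {ξ : Ordinal.{0}} {n : ℕ} {φ : Fm (n + 1)}
    {a : Fin n → Tm} : In Z (node ξ n φ a) ↔ ξ ∈ Z ∧ ∀ i, In Z (a i) := by
  simp only [In, ords, List.mem_cons, List.mem_flatten, List.mem_ofFn]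
  constructor
  · intro h
    exact ⟨h _ (Or.inl rfl), fun i o ho => h o (Or.inr ⟨_, ⟨i, rfl⟩, ho⟩)⟩
  · rintro ⟨h1, h2⟩ o (rfl | ⟨_, ⟨i, rfl⟩, ho⟩)
    · exact h1
    · exact h2 i o ho

theorem In.rk {Z : Set Ordinal.{0}} {t : Tm} (h : In Z t) : t.rk ∈ Z := by
  cases t; exact (In_node.1 h).1

theorem Below.rk_lt {θ : Ordinal.{0}} {t : Tm} (h : Below θ t) : t.rk < θ := by
  cases t; exact h.1

theorem Wf.below {θ : Ordinal.{0}} {t : Tm} (h : Wf t) (h' : t.rk < θ) : Below θ t := by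
  cases t; obtain ⟨_, h⟩ := h; exact ⟨h', h.2⟩

theorem Below.wf {θ : Ordinal.{0}} {t : Tm} (h : Below θ t) : Wf t := ⟨θ, h⟩

theorem Below.mono {θ θ' : Ordinal.{0}} {t : Tm} (h : Below θ t) (h' : θ ≤ θ') : Below θ' t :=
  h.wf.below (h.rk_lt.trans_le h')

theorem Below.in_Iio {t : Tm} : ∀ {θ : Ordinal.{0}}, Below θ t → In (Iio θ) t := by
  induction t with
  | node ξ n φ a ih =>
    intro θ h
    exact In_node.2 ⟨h.1, fun i o ho => (ih i (h.2 i) o ho).trans h.1⟩

theorem Below.val_mem {t : Tm} : ∀ {θ : Ordinal.{0}}, Below θ t → t.val ∈ L θ := by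
  induction t with
  | node ξ n φ a ih =>
    intro θ h
    exact sep_mem_L h.1 φ _ fun i => ih i (h.2 i)

theorem val_subset (t : Tm) : t.val ⊆ L t.rk := by
  cases t
  intro x hx
  exact (ZFSet.mem_sep.1 hx).1

theorem exists_val : ∀ (θ : Ordinal.{0}) (x : ZFSet.{0}), x ∈ L θ →
    ∃ t : Tm, Below θ t ∧ t.val = x := by
  intro θ
  induction θ using WellFoundedLT.induction with
  | ind θ ih =>
    intro x hx
    obtain ⟨ξ, hξ, hx⟩ := mem_L.1 hx
    obtain ⟨-, n, φ, v, hv, rfl⟩ := ZFSet.mem_sep.1 hx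
    choose a ha hav using fun i => ih ξ hξ (v i) (hv i)
    refine ⟨node ξ n φ a, ⟨hξ, ha⟩, ?_⟩
    have : (fun i => val (a i)) = v := funext hav
    simp only [val, this]

theorem rk_map (f : Ordinal.{0} → Ordinal.{0}) (t : Tm) : (t.map f).rk = f t.rk := by
  cases t; rfl

theorem ords_map (f : Ordinal.{0} → Ordinal.{0}) (t : Tm) : (t.map f).ords = t.ords.map f := by
  induction t with
  | node ξ n φ a ih =>
    simp only [map, ords, List.map_cons, List.map_flatten, List.map_ofFn, ih]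
    rfl

theorem code_map (f : Ordinal.{0} → Ordinal.{0}) (t : Tm) : (t.map f).code = t.code := by
  induction t with
  | node ξ n φ a ih => simp only [map, code, ih, ords_map, List.length_map]

theorem map_eq_self {f : Ordinal.{0} → Ordinal.{0}} {t : Tm} (h : ∀ o ∈ t.ords, f o = o) :
    t.map f = t := by
  induction t with
  | node ξ n φ a ih =>
    have h' : In {o | f o = o} (node ξ n φ a) := h
    rw [In_node] at h'
    have h1 : f ξ = ξ := h'.1
    have h2 : (fun i => map f (a i)) = a := funext fun i => ih i (h'.2 i)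
    simp only [map, h1, h2]

theorem map_id' (t : Tm) : t.map id = t := map_eq_self fun _ _ => rfl

theorem key_inj {t : Tm} : ∀ {s : Tm}, t.code = s.code → t.ords = s.ords → t = s := by
  induction t with
  | node ξ n φ a ih =>
    intro s hc ho
    obtain ⟨ξ', n', φ', a'⟩ := s
    simp only [code, Nat.pair_eq_pair] at hc
    obtain ⟨rfl, hφ, ha⟩ := hc
    obtain rfl := fcode_inj _ _ hφ
    have ha' := List.ofFn_injective (Encodable.encode_injective ha)
    simp only [ords, List.cons.injEq] at ho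
    obtain ⟨rfl, ho⟩ := ho
    have hl : (List.ofFn fun i => ords (a i)) = List.ofFn fun i => ords (a' i) := by
      rw [List.eq_iff_flatten_eq]
      refine ⟨ho, ?_⟩
      rw [List.map_ofFn, List.map_ofFn]
      congr 1
      funext i
      exact (Prod.ext_iff.1 (congrFun ha' i)).2
    have hl' := List.ofFn_injective hl
    have : a = a' := funext fun i => ih i (Prod.ext_iff.1 (congrFun ha' i)).1 (congrFun hl' i)
    rw [this]

theorem Below.map_col {Z : Set Ordinal.{0}} {t : Tm} :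
    ∀ {θ : Ordinal.{0}}, In Z t → Below θ t → Below (col Z θ) (t.map (col Z)) := by
  induction t with
  | node ξ n φ a ih =>
    intro θ hZ h
    rw [In_node] at hZ
    exact ⟨col_lt_col hZ.1 h.1, fun i => ih i (hZ.2 i) (h.2 i)⟩

theorem exists_lift {Z : Set Ordinal.{0}} {s : Tm} :
    ∀ {θ : Ordinal.{0}}, Below (col Z θ) s → ∃ t, In Z t ∧ Below θ t ∧ t.map (col Z) = s := by
  induction s with
  | node ξ n φ a ih =>
    intro θ h
    obtain ⟨ζ, hζ, hlt, rfl⟩ := lt_col_iff.1 h.1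
    choose b hb1 hb2 hb3 using fun i => ih i (h.2 i)
    refine ⟨node ζ n φ b, In_node.2 ⟨hζ, hb1⟩, ⟨hlt, hb2⟩, ?_⟩
    have : (fun i => map (col Z) (b i)) = a := funext hb3
    simp only [map, this]

theorem card_In (B : Set Ordinal.{0}) : #{t : Tm | In B t} ≤ max #B ℵ₀ := by
  classical
  let g : {t : Tm | In B t} → ULift.{1} ℕ × List B := fun t =>
    (⟨t.1.code⟩, t.1.ords.pmap (fun o ho => ⟨o, ho⟩) t.2)
  have hg : Function.Injective g := by
    intro t s h
    have h1 : t.1.code = s.1.code := congrArg (fun x => x.1.down) h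
    have h2 := congrArg (fun x => x.2.map Subtype.val) h
    have h3 : ∀ u : {t : Tm | In B t}, (g u).2.map Subtype.val = u.1.ords := by
      intro u
      change (u.1.ords.attachWith _ u.2).map Subtype.val = _
      exact List.attachWith_map_subtype_val _
    rw [h3, h3] at h2
    exact Subtype.ext (key_inj h1 h2)
  refine (mk_le_of_injective hg).trans ?_
  rw [mk_prod, Cardinal.lift_id, Cardinal.lift_id]
  have h3 : #(List B) ≤ max #B ℵ₀ := by
    rcases isEmpty_or_nonempty B with hB | hB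
    · exact le_max_of_le_right mk_le_aleph0
    · exact (mk_list_eq_max_mk_aleph0 B).le
  have h4 : #(ULift.{1} ℕ) ≤ max #B ℵ₀ := le_max_of_le_right mk_le_aleph0
  exact (mul_le_mul' h4 h3).trans (mul_eq_self (le_max_right _ _)).le

/-- The term naming `L β`. -/
def lv (β : Ordinal.{0}) : Tm := node β 0 (.eq 0 0) Fin.elim0

theorem val_lv (β : Ordinal.{0}) : (lv β).val = L β := by
  ext x
  simp [lv, val, Sat]

theorem map_lv (f : Ordinal.{0} → Ordinal.{0}) (β : Ordinal.{0}) : (lv β).map f = lv (f β) := by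
  simp only [lv, map]
  congr 1
  funext i
  exact i.elim0

theorem In_lv {Z : Set Ordinal.{0}} {β : Ordinal.{0}} (h : β ∈ Z) : In Z (lv β) :=
  In_node.2 ⟨h, fun i => i.elim0⟩

theorem below_lv {θ β : Ordinal.{0}} (h : β < θ) : Below θ (lv β) := ⟨h, fun i => i.elim0⟩

theorem val_cons {n : ℕ} (g : Tm → ZFSet.{0}) (u : Tm) (a : Fin n → Tm) :
    (fun i => g ((Fin.cons u a : Fin (n + 1) → Tm) i)) =
      (Fin.cons (g u) (fun i => g (a i)) : Fin (n + 1) → ZFSet.{0}) := by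
  funext i
  refine Fin.cases ?_ (fun i => ?_) i <;> rfl

theorem rep {η : Ordinal.{0}} {s : Tm} (hs : Wf s) (h : s.rk ≤ η) :
    ∃ (n : ℕ) (χ : Fm (n + 1)) (a : Fin n → Tm), (∀ i, Below η (a i)) ∧
      (∀ Z, In Z s → ∀ i, In Z (a i)) ∧ ∀ (f : Ordinal.{0} → Ordinal.{0}), ∀ x ∈ L (f η),
        (x ∈ (s.map f).val ↔ Sat (L (f η)) χ (Fin.cons x fun i => ((a i).map f).val)) := by
  rcases h.eq_or_lt with h | h
  · obtain ⟨ξ, n, φ, a⟩ := s
    obtain rfl : ξ = η := h
    obtain ⟨_, hs⟩ := hs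
    refine ⟨n, φ, a, hs.2, fun Z hZ => (In_node.1 hZ).2, fun f x hx => ?_⟩
    simp only [map, val, ZFSet.mem_sep, hx, true_and]
  · exact ⟨1, .mem 0 1, fun _ => s, fun _ => hs.below h, fun Z hZ _ => hZ, fun f x _ => Iff.rfl⟩

theorem exists_diff {η : Ordinal.{0}} {t s : Tm} (ht : Wf t) (hs : Wf s) (h1 : t.rk ≤ η)
    (h2 : s.rk ≤ η) : ∃ d : Tm, d.rk = η ∧ Wf d ∧ (∀ Z, η ∈ Z → In Z t → In Z s → In Z d) ∧
      ∀ (f : Ordinal.{0} → Ordinal.{0}) (x : ZFSet.{0}), (x ∈ (d.map f).val ↔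
        x ∈ L (f η) ∧ x ∈ (t.map f).val ∧ x ∉ (s.map f).val) := by
  obtain ⟨n, χ, a, ha1, ha2, ha3⟩ := rep ht h1
  obtain ⟨m, χ', b, hb1, hb2, hb3⟩ := rep hs h2
  have hall : ∀ (P : Tm → Prop), (∀ i, P (a i)) → (∀ i, P (b i)) → ∀ i, P (Fin.append a b i) := by
    intro P hp hq i
    refine Fin.addCases (fun i => ?_) (fun i => ?_) i
    · rw [Fin.append_left]; exact hp i
    · rw [Fin.append_right]; exact hq i
  refine ⟨node η (n + m) (.and (ren (Fin.cons 0 fun i => (Fin.castAdd m i).succ) χ)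
    (.neg (ren (Fin.cons 0 fun i => (Fin.natAdd n i).succ) χ'))) (Fin.append a b), rfl,
    ⟨η + 1, Order.lt_add_one_iff.2 le_rfl, hall _ ha1 hb1⟩,
    fun Z hη h3 h4 => In_node.2 ⟨hη, hall _ (ha2 Z h3) (hb2 Z h4)⟩, fun f x => ?_⟩
  simp only [map, val, ZFSet.mem_sep, Sat, sat_ren]
  refine and_congr_right fun hx => ?_
  rw [ha3 f x hx, hb3 f x hx]
  refine and_congr ?_ (not_congr ?_)
  · refine iff_of_eq (congrArg _ (funext fun i => ?_))
    refine Fin.cases rfl (fun i => ?_) i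
    simp only [Fin.cons_succ, Fin.append_left]
  · refine iff_of_eq (congrArg _ (funext fun i => ?_))
    refine Fin.cases rfl (fun i => ?_) i
    simp only [Fin.cons_succ, Fin.append_right]

theorem exists_same {t : Tm} (ht : Wf t) : ∃ e : Tm, e.rk = t.rk ∧ Wf e ∧
    (∀ Z, In Z t → In Z e) ∧ ∀ x, x ∈ e.val ↔ x ∈ L t.rk ∧ x = t.val := by
  obtain ⟨η, n, φ, a⟩ := t
  obtain ⟨θ, ht⟩ := ht
  refine ⟨node η n (.all (iffF (.mem 0 1) (ren (Fin.cons 0 fun i => i.succ.succ) φ))) a, rfl,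
    ⟨θ, ht⟩, fun Z hZ => In_node.2 (In_node.1 hZ), fun x => ?_⟩
  simp only [val, ZFSet.mem_sep, Sat, sat_iffF, sat_ren, rk]
  refine and_congr_right fun hx => ?_
  have key : ∀ z : ZFSet.{0}, (fun i => (Fin.cons z (Fin.cons x fun i => val (a i) :
      Fin (n + 1) → ZFSet.{0}) : Fin (n + 1 + 1) → ZFSet.{0})
        ((Fin.cons 0 fun i : Fin n => i.succ.succ : Fin (n + 1) → Fin (n + 1 + 1)) i)) =
      (Fin.cons z fun i => val (a i) : Fin (n + 1) → ZFSet.{0}) := by
    intro z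
    funext i
    refine Fin.cases rfl (fun i => rfl) i
  simp only [key]
  constructor
  · intro h
    ext z
    rw [ZFSet.mem_sep]
    exact ⟨fun hz => ⟨L_trans η x hx hz, (h z (L_trans η x hx hz)).1 hz⟩,
      fun hz => (h z hz.1).2 hz.2⟩
  · intro h z hz
    change z ∈ x ↔ _
    rw [h, ZFSet.mem_sep]
    exact ⟨fun h' => h'.2, fun h' => ⟨hz, h'⟩⟩

end Tm

end Pool.Agent.Lib.MP_0a8963_lc
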