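import Mathlib
import Pool.Agent.Lib.MP_0a8963_lc.Tm

set_option autoImplicit false

namespace Pool.Agent.Lib.MP_0a8963_lc

open Pool.Agent.Lib.ZFCForcing Cardinal Ordinal Set Tm

/-- The canonical well-ordering of terms. -/
def KL (t s : Tm) : Prop :=
  Prod.Lex (· < ·) (List.Shortlex (· < ·)) (t.code, t.ords) (s.code, s.ords)

theorem KL_wf : WellFounded KL :=
  InvImage.wf (fun t : Tm => (t.code, t.ords))
    (WellFounded.prod_lex wellFounded_lt (List.Shortlex.wf wellFounded_lt))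

theorem KL_total {t s : Tm} (h1 : ¬ KL t s) (h2 : ¬ KL s t) : t = s := by
  unfold KL at h1 h2
  rw [Prod.lex_def] at h1 h2
  push Not at h1 h2
  have hc : t.code = s.code := le_antisymm h2.1 h1.1
  refine key_inj hc ?_
  rcases trichotomous_of (List.Shortlex (· < · : Ordinal.{0} → Ordinal.{0} → Prop)) t.ords s.ords
    with h | h | h
  · exact absurd h (h1.2 hc)
  · exact h
  · exact absurd h (h2.2 hc.symm)

theorem lex_of_map {Z : Set Ordinal.{0}} : ∀ {l l' : List Ordinal.{0}}, (∀ o ∈ l, o ∈ Z) →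
    (∀ o ∈ l', o ∈ Z) → List.Lex (· < ·) (l.map (col Z)) (l'.map (col Z)) →
      List.Lex (· < ·) l l'
  | [], [], _, _, h => by cases h
  | [], _ :: _, _, _, _ => List.Lex.nil
  | _ :: _, [], _, _, h => by cases h
  | a :: l, b :: l', h1, h2, h => by
    have ha := h1 a List.mem_cons_self
    have hb := h2 b List.mem_cons_self
    rw [List.map_cons, List.map_cons, List.cons_lex_cons_iff] at h
    rw [List.cons_lex_cons_iff]
    rcases h with h | ⟨h, h'⟩
    · exact Or.inl ((col_lt_col_iff ha).1 h)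
    · exact Or.inr ⟨col_injOn Z ha hb h, lex_of_map (fun o ho => h1 o (List.mem_cons_of_mem _ ho))
        (fun o ho => h2 o (List.mem_cons_of_mem _ ho)) h'⟩

theorem KL_of_map {Z : Set Ordinal.{0}} {t s : Tm} (ht : In Z t) (hs : In Z s)
    (h : KL (t.map (col Z)) (s.map (col Z))) : KL t s := by
  unfold KL at h ⊢
  rw [Prod.lex_def] at h ⊢
  simp only [code_map, ords_map, List.shortlex_def, List.length_map] at h ⊢
  rcases h with h | ⟨h, h' | ⟨h', h''⟩⟩
  · exact Or.inl h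
  · exact Or.inr ⟨h, Or.inl h'⟩
  · exact Or.inr ⟨h, Or.inr ⟨h', lex_of_map ht hs h''⟩⟩

/-- `t` names an element of the value of `s`. -/
def Wit (s t : Tm) : Prop := Below s.rk t ∧ t.val ∈ s.val

/-- `t` is the least name of an element of the value of `s`. -/
def Sk (s t : Tm) : Prop := Wf s ∧ Wit s t ∧ ∀ t', Wit s t' → ¬ KL t' t

theorem Sk.unique {s t t' : Tm} (h : Sk s t) (h' : Sk s t') : t = t' :=
  KL_total (h'.2.2 t h.2.1) (h.2.2 t' h'.2.1)

theorem exists_sk {s : Tm} (hs : Wf s) {x : ZFSet.{0}} (hx : x ∈ s.val) : ∃ t, Sk s t := by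
  obtain ⟨t, ht, rfl⟩ := exists_val _ x (val_subset s hx)
  obtain ⟨m, hm, hmin⟩ := KL_wf.has_min {t | Wit s t} ⟨t, ht, hx⟩
  exact ⟨m, hs, hm, hmin⟩

/-- Membership in the hull of `A`. -/
inductive InH (A : Set Ordinal.{0}) : Ordinal.{0} → Prop
  | base (a : Ordinal.{0}) : a ∈ A → InH A a
  | sk (s t : Tm) (o : Ordinal.{0}) : (∀ o' ∈ s.ords, InH A o') → Sk s t → o ∈ t.ords → InH A o

/-- The hull of a set of ordinals. -/
def Hl (A : Set Ordinal.{0}) : Set Ordinal.{0} := {o | InH A o}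

theorem Hl_sub (A : Set Ordinal.{0}) : A ⊆ Hl A := fun a ha => InH.base a ha

theorem Hl_le {A B : Set Ordinal.{0}} (h : A ⊆ Hl B) : Hl A ⊆ Hl B := by
  intro o ho
  induction ho with
  | base a ha => exact h ha
  | sk s t o _ h2 h3 ih => exact InH.sk s t o ih h2 h3

theorem Hl_mono {A B : Set Ordinal.{0}} (h : A ⊆ B) : Hl A ⊆ Hl B := Hl_le (h.trans (Hl_sub B))

theorem Hl_idem (A : Set Ordinal.{0}) : Hl (Hl A) ⊆ Hl A := Hl_le subset_rfl

theorem Hl_fin {A : Set Ordinal.{0}} {ξ : Ordinal.{0}} (h : ξ ∈ Hl A) :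
    ∃ l : List Ordinal.{0}, (∀ a ∈ l, a ∈ A) ∧ ξ ∈ Hl {a | a ∈ l} := by
  induction h with
  | base a ha => exact ⟨[a], by simpa using ha, InH.base a (by simp)⟩
  | sk s t o _ h2 h3 ih =>
    have key : ∀ os : List Ordinal.{0}, (∀ o' ∈ os, ∃ l : List Ordinal.{0}, (∀ a ∈ l, a ∈ A) ∧
        o' ∈ Hl {a | a ∈ l}) → ∃ l : List Ordinal.{0}, (∀ a ∈ l, a ∈ A) ∧
          ∀ o' ∈ os, o' ∈ Hl {a | a ∈ l} := by
      intro os
      induction os with
      | nil => exact fun _ => ⟨[], by simp, by simp⟩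
      | cons b os ih' =>
        intro h
        obtain ⟨l1, h1, h1'⟩ := h b List.mem_cons_self
        obtain ⟨l2, h4, h4'⟩ := ih' fun o' ho' => h o' (List.mem_cons_of_mem _ ho')
        refine ⟨l1 ++ l2, fun a ha => (List.mem_append.1 ha).elim (h1 a) (h4 a), fun o' ho' => ?_⟩
        rcases List.mem_cons.1 ho' with rfl | ho'
        · exact Hl_mono (fun a ha => List.mem_append_left _ ha) h1'
        · exact Hl_mono (fun a ha => List.mem_append_right _ ha) (h4' o' ho')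
    obtain ⟨l, hl, hl'⟩ := key s.ords ih
    exact ⟨l, hl, InH.sk s t o hl' h2 h3⟩

/-- One closure step. -/
def stepH (B : Set Ordinal.{0}) : Set Ordinal.{0} :=
  B ∪ {o | ∃ s t, In B s ∧ Sk s t ∧ o ∈ t.ords}

theorem card_stepH (B : Set Ordinal.{0}) : #(stepH B) ≤ max #B ℵ₀ := by
  classical
  have h0 : ℵ₀ ≤ max #B ℵ₀ := le_max_right _ _
  let g : {s : Tm | In B s} → Set Ordinal.{0} := fun s => {o | ∃ t, Sk s.1 t ∧ o ∈ t.ords}
  have hg : ∀ s, #(g s) ≤ max #B ℵ₀ := by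
    intro s
    refine le_trans ?_ h0
    rw [le_aleph0_iff_set_countable]
    by_cases h : ∃ t, Sk s.1 t
    · obtain ⟨t, ht⟩ := h
      refine (List.finite_toSet t.ords).countable.mono ?_
      rintro o ⟨t', ht', ho⟩
      exact ht.unique ht' ▸ ho
    · refine Set.countable_empty.mono ?_
      rintro o ⟨t', ht', -⟩
      exact h ⟨t', ht'⟩
  have h1 : {o | ∃ s t, In B s ∧ Sk s t ∧ o ∈ t.ords} ⊆ ⋃ s, g s := by
    rintro o ⟨s, t, h1, h2, h3⟩
    exact mem_iUnion.2 ⟨⟨s, h1⟩, t, h2, h3⟩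
  have h2 : #(⋃ s, g s) ≤ max #B ℵ₀ := by
    refine (mk_iUnion_le g).trans ?_
    exact (mul_le_mul' (card_In B) (ciSup_le' hg)).trans (mul_eq_self h0).le
  refine (mk_union_le _ _).trans ?_
  exact (add_le_add (le_max_left _ _) ((mk_le_mk_of_subset h1).trans h2)).trans
    (add_eq_self h0).le

/-- Iterated closure steps. -/
def itH (A : Set Ordinal.{0}) : ℕ → Set Ordinal.{0}
  | 0 => A
  | n + 1 => stepH (itH A n)

theorem card_itH (A : Set Ordinal.{0}) (n : ℕ) : #(itH A n) ≤ max #A ℵ₀ := by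
  induction n with
  | zero => exact le_max_left _ _
  | succ n ih => exact (card_stepH _).trans (max_le ih (le_max_right _ _))

theorem itH_mono (A : Set Ordinal.{0}) : Monotone (itH A) :=
  monotone_nat_of_le_succ fun _ => subset_union_left

theorem exists_itH {A : Set Ordinal.{0}} {o : Ordinal.{0}} (ho : o ∈ Hl A) :
    ∃ n, o ∈ itH A n := by
  induction ho with
  | base a ha => exact ⟨0, ha⟩
  | sk s t o _ h2 h3 ih =>
    have key : ∀ os : List Ordinal.{0}, (∀ o' ∈ os, ∃ n, o' ∈ itH A n) →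
        ∃ n : ℕ, ∀ o' ∈ os, o' ∈ itH A n := by
      intro os
      induction os with
      | nil => exact fun _ => ⟨0, by simp⟩
      | cons b os ih' =>
        intro h
        obtain ⟨n1, h1⟩ := h b List.mem_cons_self
        obtain ⟨n2, h4⟩ := ih' fun o' ho' => h o' (List.mem_cons_of_mem _ ho')
        refine ⟨max n1 n2, fun o' ho' => ?_⟩
        rcases List.mem_cons.1 ho' with rfl | ho'
        · exact itH_mono A (le_max_left _ _) h1
        · exact itH_mono A (le_max_right _ _) (h4 o' ho')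
    obtain ⟨n, hn⟩ := key s.ords ih
    exact ⟨n + 1, Or.inr ⟨s, t, hn, h2, h3⟩⟩

theorem card_Hl (A : Set Ordinal.{0}) : #(Hl A) ≤ max #A ℵ₀ := by
  have h0 : ℵ₀ ≤ max #A ℵ₀ := le_max_right _ _
  have hsub : Hl A ⊆ ⋃ n : ULift.{1} ℕ, itH A n.down := by
    intro o ho
    obtain ⟨n, hn⟩ := exists_itH ho
    exact mem_iUnion.2 ⟨⟨n⟩, hn⟩
  have h1 : #(ULift.{1} ℕ) ≤ max #A ℵ₀ := mk_le_aleph0.trans h0
  have h2 : ⨆ n : ULift.{1} ℕ, #(itH A n.down) ≤ max #A ℵ₀ :=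
    ciSup_le' fun n => card_itH A n.down
  refine (mk_le_mk_of_subset hsub).trans ((mk_iUnion_le _).trans ?_)
  exact (mul_le_mul' h1 h2).trans (mul_eq_self h0).le

section Transfer

variable {Z : Set Ordinal.{0}}

theorem tv (hZ : Hl Z ⊆ Z) {s : Tm} (hs : Wf s) (hs' : In Z s) {x : ZFSet.{0}} (hx : x ∈ s.val) :
    ∃ t, In Z t ∧ Below s.rk t ∧ t.val ∈ s.val := by
  obtain ⟨t, ht⟩ := exists_sk hs hx
  exact ⟨t, fun o ho => hZ (InH.sk s t o (fun o' ho' => InH.base _ (hs' o' ho')) ht ho),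
    ht.2.1.1, ht.2.1.2⟩

theorem rank_red (hZ : Hl Z ⊆ Z) {ζ : Ordinal.{0}} : ∀ (η : Ordinal.{0}) (t : Tm), t.rk = η →
    Wf t → In Z t → t.val ∈ L ζ → ∃ u, In Z u ∧ Below ζ u ∧ u.val = t.val := by
  intro η
  induction η using WellFoundedLT.induction with
  | ind η ih =>
    rintro t rfl ht ht' hv
    rcases lt_or_ge t.rk ζ with h | h
    · exact ⟨t, ht', ht.below h, rfl⟩
    · obtain ⟨e, he1, he2, he3, he4⟩ := exists_same ht
      obtain ⟨u, hu1, hu2, hu3⟩ := tv hZ he2 (he3 Z ht') ((he4 _).2 ⟨L_mono h hv, rfl⟩)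
      have hu4 := ((he4 _).1 hu3).2
      obtain ⟨w, hw1, hw2, hw3⟩ := ih u.rk (he1 ▸ hu2.rk_lt) u rfl hu2.wf hu1 (hu4 ▸ hv)
      exact ⟨w, hw1, hw2, hw3.trans hu4⟩

/-- Transfer of satisfaction at level `ξ`. -/
def Trf (Z : Set Ordinal.{0}) (ξ : Ordinal.{0}) : Prop :=
  ∀ (n : ℕ) (φ : Fm n) (a : Fin n → Tm), (∀ i, In Z (a i)) → (∀ i, Below ξ (a i)) →
    (Sat (L ξ) φ (fun i => (a i).val) ↔
      Sat (L (col Z ξ)) φ (fun i => ((a i).map (col Z)).val))

theorem mem_char {s u : Tm} (hT : Trf Z s.rk) (hs : Wf s) (hs' : In Z s) (hu : In Z u)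
    (hu' : Below s.rk u) : u.val ∈ s.val ↔ (u.map (col Z)).val ∈ (s.map (col Z)).val := by
  obtain ⟨ξ, n, φ, a⟩ := s
  obtain ⟨θ, hs⟩ := hs
  have h1 := hT (n + 1) φ (Fin.cons u a)
    (fun i => Fin.cases hu (fun i => (In_node.1 hs').2 i) i)
    (fun i => Fin.cases hu' (fun i => hs.2 i) i)
  rw [val_cons Tm.val, val_cons fun t => (t.map (col Z)).val] at h1
  have h2 : u.val ∈ L ξ := hu'.val_mem
  have h3 : (u.map (col Z)).val ∈ L (col Z ξ) := (Below.map_col hu hu').val_mem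
  simp only [Tm.map, Tm.val, ZFSet.mem_sep, h2, h3, true_and]
  exact h1

theorem sub_tr (hZ : Hl Z ⊆ Z) {η : Ordinal.{0}} (hη : η ∈ Z) (hT : Trf Z η) {t s : Tm}
    (ht : Wf t) (hs : Wf s) (ht' : In Z t) (hs' : In Z s) (h1 : t.rk ≤ η) (h2 : s.rk ≤ η) :
    t.val ⊆ s.val ↔ (t.map (col Z)).val ⊆ (s.map (col Z)).val := by
  obtain ⟨d, rfl, hd2, hd3, hd4⟩ := exists_diff ht hs h1 h2
  have hd := hd3 Z hη ht' hs'
  have hd5 := hd4 id
  simp only [map_id', id] at hd5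
  constructor
  · intro h x hx
    by_contra hx'
    have hx2 : x ∈ L (col Z d.rk) := by
      have := val_subset _ hx
      rw [rk_map] at this
      exact L_mono (col_mono Z h1) this
    have hx3 := (hd4 (col Z) x).2 ⟨hx2, hx, hx'⟩
    obtain ⟨w, hw, rfl⟩ := exists_val _ x hx2
    obtain ⟨u, hu1, hu2, rfl⟩ := exists_lift hw
    have h3 := (hd5 _).1 ((mem_char hT hd2 hd hu1 hu2).2 hx3)
    exact h3.2.2 (h h3.2.1)
  · intro h x hx
    by_contra hx'
    obtain ⟨u, hu1, hu2, hu3⟩ := tv hZ hd2 hd ((hd5 x).2 ⟨L_mono h1 (val_subset _ hx), hx, hx'⟩)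
    have h3 := (hd4 (col Z) _).1 ((mem_char hT hd2 hd hu1 hu2).1 hu3)
    exact h3.2.2 (h h3.2.1)

theorem eq_tr (hZ : Hl Z ⊆ Z) {ξ : Ordinal.{0}} (ih : ∀ η < ξ, η ∈ Z → Trf Z η) {t s : Tm}
    (ht : Below ξ t) (hs : Below ξ s) (ht' : In Z t) (hs' : In Z s) :
    t.val = s.val ↔ (t.map (col Z)).val = (s.map (col Z)).val := by
  have hη : max t.rk s.rk ∈ Z := by
    rcases max_choice t.rk s.rk with h | h <;> rw [h]
    · exact ht'.rk
    · exact hs'.rk
  have hT := ih _ (max_lt ht.rk_lt hs.rk_lt) hη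
  rw [le_antisymm_iff, le_antisymm_iff]
  exact and_congr (sub_tr hZ hη hT ht.wf hs.wf ht' hs' (le_max_left _ _) (le_max_right _ _))
    (sub_tr hZ hη hT hs.wf ht.wf hs' ht' (le_max_right _ _) (le_max_left _ _))

theorem mem_tr (hZ : Hl Z ⊆ Z) {ξ : Ordinal.{0}} (ih : ∀ η < ξ, η ∈ Z → Trf Z η) {t s : Tm}
    (ht : Below ξ t) (hs : Below ξ s) (ht' : In Z t) (hs' : In Z s) :
    t.val ∈ s.val ↔ (t.map (col Z)).val ∈ (s.map (col Z)).val := by
  have hT := ih _ hs.rk_lt hs'.rk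
  constructor
  · intro h
    obtain ⟨u, hu1, hu2, hu3⟩ := rank_red hZ _ t rfl ht.wf ht' (val_subset _ h)
    rw [← (eq_tr hZ ih (hu2.mono hs.rk_lt.le) ht hu1 ht').1 hu3]
    exact (mem_char hT hs.wf hs' hu1 hu2).1 (hu3 ▸ h)
  · intro h
    have h1 := val_subset _ h
    rw [rk_map] at h1
    obtain ⟨w, hw, hw'⟩ := exists_val _ _ h1
    obtain ⟨u, hu1, hu2, rfl⟩ := exists_lift hw
    rw [← (eq_tr hZ ih (hu2.mono hs.rk_lt.le) ht hu1 ht').2 hw']
    exact (mem_char hT hs.wf hs' hu1 hu2).2 (hw' ▸ h)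

theorem transfer (hZ : Hl Z ⊆ Z) : ∀ ξ, ξ ∈ Z → Trf Z ξ := by
  intro ξ
  induction ξ using WellFoundedLT.induction with
  | ind ξ ih =>
    intro hξ n φ
    induction φ with
    | mem i j => exact fun a h1 h2 => mem_tr hZ ih (h2 i) (h2 j) (h1 i) (h1 j)
    | eq i j => exact fun a h1 h2 => eq_tr hZ ih (h2 i) (h2 j) (h1 i) (h1 j)
    | neg φ ihφ => exact fun a h1 h2 => not_congr (ihφ a h1 h2)
    | and φ ψ ih1 ih2 => exact fun a h1 h2 => and_congr (ih1 a h1 h2) (ih2 a h1 h2)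
    | @all n φ ihφ =>
      intro a h1 h2
      have key : ∀ u, In Z u → Below ξ u →
          (Sat (L ξ) φ (Fin.cons u.val fun i => (a i).val) ↔ Sat (L (col Z ξ)) φ
            (Fin.cons (u.map (col Z)).val fun i => ((a i).map (col Z)).val)) := by
        intro u hu hu'
        have := ihφ (Fin.cons u a) (fun i => Fin.cases hu (fun i => h1 i) i)
          (fun i => Fin.cases hu' (fun i => h2 i) i)
        rwa [val_cons Tm.val, val_cons fun t => (t.map (col Z)).val] at this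
      constructor
      · intro h x hx
        obtain ⟨w, hw, rfl⟩ := exists_val _ x hx
        obtain ⟨u, hu1, hu2, rfl⟩ := exists_lift hw
        exact (key u hu1 hu2).1 (h _ hu2.val_mem)
      · intro h x hx
        by_contra hx'
        obtain ⟨u, hu1, hu2, hu3⟩ := tv hZ (s := Tm.node ξ n (.neg φ) a)
          ⟨ξ + 1, Order.lt_add_one_iff.2 le_rfl, h2⟩ (In_node.2 ⟨hξ, h1⟩)
          (ZFSet.mem_sep.2 ⟨hx, hx'⟩)
        exact (ZFSet.mem_sep.1 hu3).2
          ((key u hu1 hu2).2 (h _ (Below.map_col hu1 hu2).val_mem))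

theorem Sk.map_col (hZ : Hl Z ⊆ Z) {s t : Tm} (hs : In Z s) (ht : In Z t) (h : Sk s t) :
    Sk (s.map (col Z)) (t.map (col Z)) := by
  have hT := transfer hZ _ hs.rk
  obtain ⟨θ, hθ⟩ := h.1
  refine ⟨⟨_, Below.map_col hs hθ⟩, ⟨?_, (mem_char hT h.1 hs ht h.2.1.1).1 h.2.1.2⟩, ?_⟩
  · rw [rk_map]; exact Below.map_col ht h.2.1.1
  · rintro w ⟨hw1, hw2⟩ hlt
    rw [rk_map] at hw1
    obtain ⟨u, hu1, hu2, rfl⟩ := exists_lift hw1
    exact h.2.2 u ⟨hu2, (mem_char hT h.1 hs hu1 hu2).2 hw2⟩ (KL_of_map hu1 ht hlt)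

theorem Hl_inv (hZ : Hl Z ⊆ Z) {A : Set Ordinal.{0}} (hA : A ⊆ Z) :
    Hl (col Z '' A) = col Z '' Hl A := by
  have hAZ : Hl A ⊆ Z := (Hl_mono hA).trans hZ
  apply Subset.antisymm
  · intro o ho
    induction ho with
    | base a ha => exact image_mono (Hl_sub A) ha
    | sk s t o _ h2 h3 ih =>
      obtain ⟨ξ, hξ, hξ'⟩ : s.rk ∈ col Z '' Hl A := In.rk (Z := col Z '' Hl A) ih
      have hb : Below (col Z (ξ + 1)) s :=
        h2.1.below (hξ' ▸ col_lt_col (hAZ hξ) (Order.lt_add_one_iff.2 le_rfl))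
      obtain ⟨s', hs1, hs2, rfl⟩ := exists_lift hb
      have hs3 : In (Hl A) s' := by
        intro o' ho'
        obtain ⟨c, hc, hc'⟩ := ih (col Z o') (by rw [ords_map]; exact List.mem_map_of_mem ho')
        exact col_injOn Z (hAZ hc) (hs1 o' ho') hc' ▸ hc
      have hw := h2.2.1
      have hw1 := hw.1
      rw [rk_map] at hw1
      obtain ⟨u, hu1, hu2, rfl⟩ := exists_lift hw1
      have hu3 := (mem_char (transfer hZ _ hs1.rk) hs2.wf hs1 hu1 hu2).2 hw.2
      obtain ⟨t', ht'⟩ := exists_sk hs2.wf hu3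
      have ht2 : In (Hl A) t' := fun o' ho' => InH.sk s' t' o' hs3 ht' ho'
      have ht3 := h2.unique (ht'.map_col hZ hs1 fun o' ho' => hAZ (ht2 o' ho'))
      rw [ht3, ords_map] at h3
      obtain ⟨c, hc, rfl⟩ := List.mem_map.1 h3
      exact ⟨c, ht2 c hc, rfl⟩
  · rintro _ ⟨o, ho, rfl⟩
    induction ho with
    | base a ha => exact InH.base _ ⟨a, ha, rfl⟩
    | sk s t o h1 h2 h3 ih =>
      have hs : In Z s := fun o' ho' => hAZ (h1 o' ho')
      have ht : In Z t := fun o' ho' => hAZ (InH.sk s t o' h1 h2 ho')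
      refine InH.sk (s.map (col Z)) (t.map (col Z)) _ ?_ (h2.map_col hZ hs ht) ?_
      · intro o' ho'
        rw [ords_map] at ho'
        obtain ⟨c, hc, rfl⟩ := List.mem_map.1 ho'
        exact ih c hc
      · rw [ords_map]; exact List.mem_map_of_mem h3

end Transfer

end Pool.Agent.Lib.MP_0a8963_lc
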