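import Mathlib
import Pool.Agent.Lib.MP_0a8963_lc.LBasic
import Pool.Agent.Lib.MP_0a8963_lc.Col
import Pool.Agent.Lib.MP_0a8963_lc.Tr

set_option autoImplicit false

namespace Pool.Agent.Lib.MP_0a8963_lc

open Pool.Agent.Lib.ZFCForcing Cardinal Ordinal Set Tm

/-- `L θ` contains a map from `L μ` onto `L κ`. -/
def Sml (θ μ κ : Ordinal.{0}) : Prop := ∃ f ∈ L θ, Onto f (L μ) (L κ)

/-- The set of ordinals coded by a shape and a list of ordinals. -/
def Dst (s : ℕ) (θ : Ordinal.{0}) (F : List Ordinal.{0}) : Set Ordinal.{0} :=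
  {β | β < θ ∧ ∃ t : Tm, t.code = s ∧ t.ords = F ∧ Below θ t ∧ L β ∈ t.val}

theorem sml_iff {θ μ κ : Ordinal.{0}} (h1 : μ < θ) (h2 : κ < θ) :
    Sat (L θ) (geF (0 : Fin 2) 1) (fun i => ((![lv μ, lv κ] : Fin 2 → Tm) i).val) ↔
      Sml θ μ κ := by
  rw [sat_geF (L_trans θ)]
  · simp only [Matrix.cons_val_zero, Matrix.cons_val_one, val_lv, Sml]
  · intro i
    fin_cases i
    · exact (below_lv h1).val_mem
    · exact (below_lv h2).val_mem

theorem sml_tr {Z : Set Ordinal.{0}} {θ μ κ : Ordinal.{0}} (hZ : Hl Z ⊆ Z) (hθ : θ ∈ Z)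
    (hμ : μ ∈ Z) (hκ : κ ∈ Z) (h1 : μ < θ) (h2 : κ < θ) :
    Sml θ μ κ ↔ Sml (col Z θ) (col Z μ) (col Z κ) := by
  rw [← sml_iff h1 h2, ← sml_iff (col_lt_col hμ h1) (col_lt_col hκ h2),
    transfer hZ θ hθ 2 (geF 0 1) ![lv μ, lv κ]]
  · refine iff_of_eq (congrArg _ (funext fun i => ?_))
    fin_cases i <;> simp [map_lv]
  · intro i
    fin_cases i
    · exact In_lv hμ
    · exact In_lv hκ
  · intro i
    fin_cases i
    · exact below_lv h1
    · exact below_lv h2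

theorem mem_tr' {Z : Set Ordinal.{0}} (hZ : Hl Z ⊆ Z) {θ : Ordinal.{0}} {t s : Tm}
    (ht : Below θ t) (hs : Below θ s) (ht' : In Z t) (hs' : In Z s) :
    t.val ∈ s.val ↔ (t.map (col Z)).val ∈ (s.map (col Z)).val :=
  mem_tr hZ (fun η _ hη => transfer hZ η hη) ht hs ht' hs'

theorem eq_tr' {Z : Set Ordinal.{0}} (hZ : Hl Z ⊆ Z) {θ : Ordinal.{0}} {t s : Tm}
    (ht : Below θ t) (hs : Below θ s) (ht' : In Z t) (hs' : In Z s) :
    t.val = s.val ↔ (t.map (col Z)).val = (s.map (col Z)).val :=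
  eq_tr hZ (fun η _ hη => transfer hZ η hη) ht hs ht' hs'

theorem dst_tr {Z : Set Ordinal.{0}} {s : ℕ} {θ : Ordinal.{0}} {F : List Ordinal.{0}}
    {β : Ordinal.{0}} (hZ : Hl Z ⊆ Z) (hF : ∀ o ∈ F, o ∈ Z) (hβ : β ∈ Z) (h : β < θ) :
    β ∈ Dst s θ F ↔ col Z β ∈ Dst s (col Z θ) (F.map (col Z)) := by
  constructor
  · rintro ⟨-, t, rfl, rfl, h1, h2⟩
    refine ⟨col_lt_col hβ h, t.map (col Z), code_map _ _, ords_map _ _, Below.map_col hF h1, ?_⟩
    have := (mem_tr' hZ (below_lv h) h1 (In_lv hβ) hF).1 (by rwa [val_lv])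
    rwa [map_lv, val_lv] at this
  · rintro ⟨-, w, h1, h2, h3, h4⟩
    obtain ⟨t, ht1, ht2, rfl⟩ := exists_lift h3
    rw [code_map] at h1
    rw [ords_map] at h2
    have h5 : t.ords = F := by
      have : ∀ {l l' : List Ordinal.{0}}, (∀ o ∈ l, o ∈ Z) → (∀ o ∈ l', o ∈ Z) →
          l.map (col Z) = l'.map (col Z) → l = l' := by
        intro l
        induction l with
        | nil => intro l' _ _ h; cases l' <;> simp_all
        | cons a l ih =>
          intro l' h1 h2 h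
          cases l' with
          | nil => simp at h
          | cons b l' =>
            simp only [List.map_cons, List.cons.injEq] at h ⊢
            exact ⟨col_injOn Z (h1 a List.mem_cons_self) (h2 b List.mem_cons_self) h.1,
              ih (fun o ho => h1 o (List.mem_cons_of_mem _ ho))
                (fun o ho => h2 o (List.mem_cons_of_mem _ ho)) h.2⟩
      exact this ht1 hF h2
    refine ⟨h, t, h1, h5, ht2, ?_⟩
    have := (mem_tr' hZ (below_lv h) ht2 (In_lv hβ) ht1).2 (by rwa [map_lv, val_lv])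
    rwa [val_lv] at this

theorem dst_ex (hL : ∀ x : ZFSet.{0}, ∃ o, x ∈ L o) (a : Set Ordinal.{0}) (κ : Ordinal.{0})
    (ha : a ⊆ Iio κ) : ∃ s θ F, κ < θ ∧ (∀ o ∈ F, o < θ) ∧ a = Dst s θ F := by
  obtain ⟨o, ho⟩ := hL ((L κ).sep fun x => ∃ β ∈ a, x = L β)
  have hκ : κ < max o (κ + 1) := lt_max_of_lt_right (Order.lt_add_one_iff.2 le_rfl)
  obtain ⟨t, ht, htv⟩ := exists_val _ _ (L_mono (le_max_left o (κ + 1)) ho)
  refine ⟨t.code, _, t.ords, hκ, ht.in_Iio, ?_⟩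
  ext β
  constructor
  · intro hβ
    refine ⟨(ha hβ).trans hκ, t, rfl, rfl, ht, ?_⟩
    rw [htv, ZFSet.mem_sep]
    exact ⟨L_mem_L.2 (ha hβ), β, hβ, rfl⟩
  · rintro ⟨-, t', h1, h2, -, h3⟩
    obtain rfl := key_inj h1 h2
    rw [htv, ZFSet.mem_sep] at h3
    obtain ⟨-, γ, hγ, h4⟩ := h3
    exact L_injective h4 ▸ hγ

theorem exists_hullSys (hL : ∀ x : ZFSet.{0}, ∃ o, x ∈ L o) : Nonempty HullSys :=
  ⟨{ H := Hl
     Sm := Sml
     Ds := Dst
     sub := Hl_sub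
     mono := fun _ _ => Hl_mono
     idem := Hl_idem
     fin := fun _ _ => Hl_fin
     card := card_Hl
     inv := fun _ _ hZ hA => Hl_inv hZ hA
     sm_tr := fun _ _ _ _ => sml_tr
     sm_mono := fun _ _ _ _ ⟨f, hf, h⟩ hle => ⟨f, L_mono hle hf, h⟩
     sm_card := fun _ μ κ ⟨_, _, h⟩ => (card_le_card_L κ).trans (h.card_le.trans (card_L_le μ))
     sm_ex := fun μ κ h1 h2 => by
       have h0 : ℵ₀ ≤ μ.card := by simpa using Ordinal.card_le_card h1
       obtain ⟨f, -, hf⟩ := exists_onto (X := L μ) (Y := L κ)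
         ((card_L_le κ).trans ((max_le h2 h0).trans (card_le_card_L μ)))
       obtain ⟨o, ho⟩ := hL f
       exact ⟨o, f, ho, hf⟩
     ds_ex := dst_ex hL
     ds_tr := fun _ _ _ _ _ hZ _ hF hβ h => dst_tr hZ hF hβ h }⟩

theorem rich (hL : ∀ x : ZFSet.{0}, ∃ o, x ∈ L o) {x : ZFSet.{0}} {a : Ordinal.{0}}
    (hx : x ⊆ L a) {c : Cardinal.{0}} (hc : ℵ₀ ≤ c) (ha : a.card ≤ c) :
    x ∈ L (Order.succ c).ord := by
  obtain ⟨o, ho⟩ := hL x
  obtain ⟨t, ht, rfl⟩ := exists_val _ _ (L_mono (le_max_left o a) ho)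
  set θ := max o a with hθ
  set Z := Hl (Iio a ∪ {o | o ∈ t.ords}) with hZdef
  have hZ : Hl Z ⊆ Z := Hl_idem _
  have htZ : In Z t := fun o ho => Hl_sub _ (Or.inr ho)
  have haZ : ∀ ζ < a, ζ ∈ Z := fun ζ hζ => Hl_sub _ (Or.inl hζ)
  have hw : ∀ y ∈ L a, ∃ w : Tm, Below θ w ∧ In Z w ∧ w.val = y ∧ w.map (col Z) = w := by
    intro y hy
    obtain ⟨w, hw1, hw2⟩ := exists_val _ _ hy
    refine ⟨w, hw1.mono (le_max_right _ _), fun o ho => haZ o (hw1.in_Iio o ho), hw2,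
      map_eq_self fun o ho => col_eq_self fun ζ hζ => haZ ζ (hζ.trans (hw1.in_Iio o ho))⟩
  have hb := Below.map_col htZ ht
  have hval : (t.map (col Z)).val = t.val := by
    ext y
    constructor
    · intro hy
      obtain ⟨u', hu', rfl⟩ := exists_val _ _ (L_trans _ _ hb.val_mem hy)
      obtain ⟨u, hu1, hu2, rfl⟩ := exists_lift hu'
      have h1 := (mem_tr' hZ hu2 ht hu1 htZ).2 hy
      obtain ⟨w, hw1, hw2, hw3, hw4⟩ := hw _ (hx h1)
      have h2 := (eq_tr' hZ hw1 hu2 hw2 hu1).1 hw3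
      rw [hw4] at h2
      rwa [← h2, hw3]
    · intro hy
      obtain ⟨w, hw1, hw2, rfl, hw4⟩ := hw _ (hx hy)
      have h1 := (mem_tr' hZ hw1 ht hw2 htZ).1 hy
      rwa [hw4] at h1
  have hcard : (col Z θ).card ≤ c := by
    have h0 : ℵ₀ ≤ Cardinal.lift.{1} c := by simpa using Cardinal.lift_le.{1}.2 hc
    rw [← Cardinal.lift_le.{1}]
    refine (card_col_le Z θ).trans ((card_Hl _).trans (max_le ?_ h0))
    refine (mk_union_le _ _).trans ((add_le_add ?_ ?_).trans (add_eq_self h0).le)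
    · rw [Cardinal.mk_Iio_ordinal]; exact Cardinal.lift_le.2 ha
    · exact (le_aleph0_iff_set_countable.2 (List.finite_toSet t.ords).countable).trans h0
  have hlt : col Z θ < (Order.succ c).ord := by
    rw [Cardinal.lt_ord]; exact Order.lt_succ_of_le hcard
  exact hval ▸ L_mono hlt.le hb.val_mem

theorem gch (hL : ∀ x : ZFSet.{0}, ∃ o, x ∈ L o) {c : Cardinal.{0}} (hc : ℵ₀ ≤ c) :
    2 ^ c = Order.succ c := by
  refine le_antisymm ?_ (Order.succ_le_of_lt (cantor c))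
  have h1 : (L c.ord).powerset ⊆ L (Order.succ c).ord := fun x hx =>
    rich hL (ZFSet.mem_powerset.1 hx) hc (card_ord c).le
  have h2 := ZFSet.card_mono h1
  rw [ZFSet.card_powerset] at h2
  have h3 : c ≤ (L c.ord).card := by simpa using card_le_card_L c.ord
  have h4 := card_L_le (Order.succ c).ord
  rw [card_ord, max_eq_left (hc.trans (Order.le_succ c))] at h4
  exact (power_le_power_left two_ne_zero h3).trans (h2.trans h4)

end Pool.Agent.Lib.MP_0a8963_lc
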