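import Mathlib
import Pool.Agent.Lib.MP_0a8963_lc.Col

set_option autoImplicit false

namespace Pool.Agent.Lib.MP_0a8963_lc

open Pool.Agent.Lib.ZFCForcing Cardinal Ordinal Set

/-- Indices of branches: an ordinal `θ > ω₃` and a list of ordinals below `θ`. -/
structure Ix where
  θ : Ordinal.{0}
  F0 : List Ordinal.{0}
  hk : ω_ 3 < θ
  hF : ∀ o ∈ F0, o < θ

/-- The parameter list of an index. -/
noncomputable def Ix.F (j : Ix) : List Ordinal.{0} := ω :: ω_ 1 :: ω_ 2 :: ω_ 3 :: j.θ :: j.F0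

/-- Nodes: a level and a diagram. -/
abbrev Node : Type 1 := Ordinal.{0} × (List Ordinal.{0} → List Ordinal.{0})

namespace HullSys

variable (S : HullSys)

/-- The type of a list: its image under the collapse of its hull. -/
noncomputable def tp (l : List Ordinal.{0}) : List Ordinal.{0} :=
  l.map (col (S.H {a | a ∈ l}))

/-- The club of closure points of an index. -/
def C (j : Ix) : Set Ordinal.{0} :=
  {a | a < ω_ 3 ∧ ∀ x ∈ S.H (Iio a ∪ {o | o ∈ j.F}), x < ω_ 3 → x < a}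

open Classical in
/-- The diagram of an index at a level. -/
noncomputable def d (j : Ix) (a : Ordinal.{0}) (l : List Ordinal.{0}) : List Ordinal.{0} :=
  if ∀ o ∈ l, o < a then S.tp (l ++ j.F) else []

/-- The branch of an index. -/
def br (j : Ix) : Set Node := {u | u.1 ∈ S.C j ∧ u.2 = S.d j u.1}

variable {S}

theorem H_closed (A : Set Ordinal.{0}) : S.H (S.H A) ⊆ S.H A := S.idem A

theorem H_subset {A M : Set Ordinal.{0}} (hM : S.H M ⊆ M) (h : A ⊆ M) : S.H A ⊆ M :=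
  (S.mono _ _ h).trans hM

theorem lset_map (f : Ordinal.{0} → Ordinal.{0}) (l : List Ordinal.{0}) :
    {a | a ∈ l.map f} = f '' {a | a ∈ l} := by
  ext a
  simp

theorem tp_inv {M : Set Ordinal.{0}} (hM : S.H M ⊆ M) {l : List Ordinal.{0}}
    (hl : ∀ a ∈ l, a ∈ M) : S.tp (l.map (col M)) = S.tp l := by
  have hA : {a | a ∈ l} ⊆ M := hl
  unfold tp
  rw [lset_map, S.inv M _ hM hA, List.map_map]
  refine List.map_congr_left fun a ha => ?_
  exact col_col (H_subset hM hA) (hl a ha)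

theorem tp_mem {x x' : Ordinal.{0}} {l l' : List Ordinal.{0}}
    (h : S.tp (x :: l) = S.tp (x' :: l')) (hx : x ∈ S.H {a | a ∈ l}) :
    x' ∈ S.H {a | a ∈ l'} := by
  unfold tp at h
  set Z := S.H {a | a ∈ x :: l} with hZ
  set Z' := S.H {a | a ∈ x' :: l'} with hZ'
  rw [List.map_cons, List.map_cons, List.cons.injEq] at h
  obtain ⟨h1, h2⟩ := h
  have hl : {a | a ∈ l} ⊆ Z := fun a ha => S.sub _ (List.mem_cons_of_mem _ ha)
  have hl' : {a | a ∈ l'} ⊆ Z' := fun a ha => S.sub _ (List.mem_cons_of_mem _ ha)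
  have h3 : col Z x ∈ col Z '' S.H {a | a ∈ l} := ⟨x, hx, rfl⟩
  rw [← S.inv Z _ (H_closed _) hl, ← lset_map, h2, lset_map, S.inv Z' _ (H_closed _) hl', h1] at h3
  obtain ⟨y, hy, hy'⟩ := h3
  have h4 : y = x' := col_injOn Z' (H_subset (H_closed _) hl' hy)
    (S.sub _ (List.mem_cons_self ..)) hy'
  exact h4 ▸ hy

theorem beta {m a : Ordinal.{0}} (hm : ω ≤ m) (ha : a.card ≤ m.card) :
    ∃ b : Ordinal.{0}, b.card ≤ m.card ∧ ∀ t, ¬ S.Sm t m a → t < b := by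
  obtain ⟨θ0, h0⟩ := S.sm_ex m a hm ha
  set c := max m a + 1 with hc
  set θ := max θ0 c with hθ
  have hmc : m < c := Order.lt_add_one_iff.2 (le_max_left _ _)
  have hac : a < c := Order.lt_add_one_iff.2 (le_max_right _ _)
  have h1 : S.Sm θ m a := S.sm_mono _ _ _ _ h0 (le_max_left _ _)
  set Z := S.H (Iio c ∪ {θ}) with hZ
  have hI : ∀ x < c, x ∈ Z := fun x hx => S.sub _ (Or.inl hx)
  have h2 := (S.sm_tr Z θ m a (H_closed _) (S.sub _ (Or.inr rfl)) (hI m hmc) (hI a hac)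
    (hmc.trans_le (le_max_right _ _)) (hac.trans_le (le_max_right _ _))).1 h1
  rw [col_eq_self (ξ := m) fun x hx => hI x (hx.trans hmc),
    col_eq_self (ξ := a) fun x hx => hI x (hx.trans hac)] at h2
  have hm0 : ℵ₀ ≤ m.card := by
    rw [← Ordinal.card_omega0]
    exact Ordinal.card_le_card hm
  have hm1 : ℵ₀ ≤ Cardinal.lift.{1} m.card := Cardinal.aleph0_le_lift.2 hm0
  refine ⟨col Z θ, ?_, fun t ht => lt_of_not_ge fun h => ht (S.sm_mono _ _ _ _ h2 h)⟩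
  rw [← Cardinal.lift_le.{1}]
  refine (card_col_le Z θ).trans ((S.card _).trans (max_le ?_ ?_))
  · refine (Cardinal.mk_union_le _ _).trans (Cardinal.add_le_of_le hm1 ?_ ?_)
    · rw [Cardinal.mk_Iio_ordinal, Cardinal.lift_le, hc, Ordinal.card_add, Ordinal.card_one]
      refine Cardinal.add_le_of_le hm0 ?_ (Cardinal.one_le_aleph0.trans hm0)
      rcases le_total m a with h | h
      · rw [max_eq_right h]
        exact ha
      · rw [max_eq_left h]
    · rw [Cardinal.mk_singleton]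
      exact Cardinal.one_le_aleph0.trans hm1
  · exact hm1

theorem d_of_lt {j : Ix} {a : Ordinal.{0}} {l : List Ordinal.{0}} (h : ∀ o ∈ l, o < a) :
    S.d j a l = S.tp (l ++ j.F) := if_pos h

theorem d_of_not {j : Ix} {a : Ordinal.{0}} {l : List Ordinal.{0}} (h : ¬ ∀ o ∈ l, o < a) :
    S.d j a l = [] := if_neg h

theorem exists_bound {T : Set Ordinal.{0}} {s : Ordinal.{0}} (h0 : T.Nonempty)
    (h : ∀ a < s, ∃ c ∈ T, a < c) (l : List Ordinal.{0}) :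
    ∃ c ∈ T, ∀ o ∈ l, o < s → o < c := by
  induction l with
  | nil =>
    obtain ⟨c, hc⟩ := h0
    exact ⟨c, hc, by simp⟩
  | cons x l ih =>
    obtain ⟨c, hc, hl⟩ := ih
    by_cases hx : x < s
    · obtain ⟨c', hc', hx'⟩ := h x hx
      rcases le_total c c' with hcc | hcc
      · refine ⟨c', hc', fun o ho hos => ?_⟩
        rcases List.mem_cons.1 ho with rfl | ho
        · exact hx'
        · exact (hl o ho hos).trans_le hcc
      · refine ⟨c, hc, fun o ho hos => ?_⟩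
        rcases List.mem_cons.1 ho with rfl | ho
        · exact hx'.trans_le hcc
        · exact hl o ho hos
    · refine ⟨c, hc, fun o ho hos => ?_⟩
      rcases List.mem_cons.1 ho with rfl | ho
      · exact absurd hos hx
      · exact hl o ho hos

theorem fin_bound {T B : Set Ordinal.{0}} {s x : Ordinal.{0}} (h0 : T.Nonempty)
    (h : ∀ a < s, ∃ c ∈ T, a < c) (hx : x ∈ S.H (Iio s ∪ B)) :
    ∃ c ∈ T, x ∈ S.H (Iio c ∪ B) := by
  obtain ⟨l, hl, hx'⟩ := S.fin _ _ hx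
  obtain ⟨c, hc, hcl⟩ := exists_bound h0 h l
  refine ⟨c, hc, S.mono _ _ (fun o ho => ?_) hx'⟩
  rcases hl o ho with h1 | h1
  · exact Or.inl (hcl o ho h1)
  · exact Or.inr h1

theorem C_closed {j : Ix} {s : Ordinal.{0}} (hs : s < ω_ 3) (h0 : ∃ c ∈ S.C j, c ≤ s)
    (h : ∀ a < s, ∃ c ∈ S.C j, a < c ∧ c ≤ s) : s ∈ S.C j := by
  refine ⟨hs, fun x hx hk => ?_⟩
  obtain ⟨c, ⟨hc, hcs⟩, hx'⟩ := fin_bound (T := {c | c ∈ S.C j ∧ c ≤ s}) h0
    (fun a ha => by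
      obtain ⟨c, h1, h2, h3⟩ := h a ha
      exact ⟨c, ⟨h1, h3⟩, h2⟩) hx
  exact (hc.2 x hx' hk).trans_le hcs

theorem two_add_one : (2 : Ordinal.{0}) + 1 = 3 := by norm_num

theorem card_le_of_lt_omega3 {a : Ordinal.{0}} (ha : a < ω_ 3) : a.card ≤ ℵ_ 2 := by
  rw [Cardinal.lt_omega_iff_card_lt, ← two_add_one, ← Cardinal.succ_aleph] at ha
  exact Order.lt_succ_iff.1 ha

/-- A countable or `ℵ₂`-small set of ordinals below `ω₃` is bounded below `ω₃`. -/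
theorem bdd_omega3 {A : Set Ordinal.{0}} (hA : #A ≤ ℵ_ 2) :
    ∃ δ < ω_ 3, ∀ a ∈ A, a < ω_ 3 → a < δ := by
  have hs : ∀ i ∈ A ∩ Iio (ω_ 3), i < ω_ 3 := fun i hi => hi.2
  have h1 : #(A ∩ Iio (ω_ 3) : Set Ordinal.{0}) < (Ordinal.lift.{1} (ω_ 3 : Ordinal.{0})).cof := by
    rw [← Ordinal.lift_cof, ← two_add_one, Cardinal.cof_omega_add_one, two_add_one]
    refine ((Cardinal.mk_le_mk_of_subset inter_subset_left).trans hA).trans_lt ?_
    rw [Cardinal.aleph_ofNat_lt_lift, Cardinal.aleph_lt_aleph]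
    norm_num
  refine ⟨_, Ordinal.sSup_add_one_lt_of_lt_cof h1 hs, fun a ha hk => ?_⟩
  refine Order.lt_add_one_iff.2 le_rfl |>.trans_le (le_csSup ⟨ω_ 3, ?_⟩ ⟨a, ⟨ha, hk⟩, rfl⟩)
  rintro _ ⟨i, hi, rfl⟩
  exact Order.add_one_le_iff.2 hi.2

theorem mk_lset_le (l : List Ordinal.{0}) : #{o | o ∈ l} ≤ ℵ₀ :=
  Cardinal.le_aleph0_iff_set_countable.2 (List.finite_toSet l).countable

theorem mk_Iio_le {a : Ordinal.{0}} (ha : a < ω_ 3) : #(Iio a) ≤ ℵ_ 2 := by
  rw [Cardinal.mk_Iio_ordinal, Cardinal.lift_le_aleph_ofNat]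
  exact card_le_of_lt_omega3 ha

theorem mk_H_le {a : Ordinal.{0}} (ha : a < ω_ 3) (l : List Ordinal.{0}) :
    #(S.H (Iio a ∪ {o | o ∈ l})) ≤ ℵ_ 2 :=
  (S.card _).trans (max_le ((Cardinal.mk_union_le _ _).trans
    (Cardinal.add_le_of_le (Cardinal.aleph0_le_aleph _) (mk_Iio_le ha)
      ((mk_lset_le l).trans (Cardinal.aleph0_le_aleph _)))) (Cardinal.aleph0_le_aleph _))

theorem C_unb (j : Ix) {a : Ordinal.{0}} (ha : a < ω_ 3) : ∃ c ∈ S.C j, a < c := by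
  have step : ∀ a : Iio (ω_ 3 : Ordinal.{0}), ∃ δ : Iio (ω_ 3 : Ordinal.{0}), a.1 < δ.1 ∧
      ∀ x ∈ S.H (Iio a.1 ∪ {o | o ∈ j.F}), x < ω_ 3 → x < δ.1 := by
    rintro ⟨a, ha⟩
    obtain ⟨δ, hδ, h⟩ := bdd_omega3 (mk_H_le (S := S) ha j.F)
    refine ⟨⟨max δ (a + 1), max_lt hδ ((Cardinal.isSuccLimit_omega 3).add_one_lt ha)⟩,
      lt_max_of_lt_right (Order.lt_add_one_iff.2 le_rfl), fun x hx hk => ?_⟩
    exact lt_max_of_lt_left (h x hx hk)
  choose f hf1 hf2 using step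
  let g : ℕ → Ordinal.{0} := fun n => (f^[n] ⟨a, ha⟩).1
  have hg : ∀ n, g n < ω_ 3 := fun n => (f^[n] ⟨a, ha⟩).2
  have hgs : ∀ n, g (n + 1) = (f (f^[n] ⟨a, ha⟩)).1 := fun n => by
    simp only [g, Function.iterate_succ_apply']
  obtain ⟨δ, hδ, hb⟩ := bdd_omega3 (A := range g)
    ((Cardinal.le_aleph0_iff_set_countable.2 (countable_range g)).trans
      (Cardinal.aleph0_le_aleph _))
  have hbd : BddAbove (range g) := ⟨δ, by
    rintro _ ⟨n, rfl⟩
    exact (hb _ ⟨n, rfl⟩ (hg n)).le⟩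
  have hle : ∀ n, g n ≤ ⨆ n, g n := fun n => le_ciSup hbd n
  refine ⟨⨆ n, g n, ⟨(ciSup_le fun n => (hb _ ⟨n, rfl⟩ (hg n)).le).trans_lt hδ,
    fun x hx hk => ?_⟩, ?_⟩
  · obtain ⟨_, ⟨n, rfl⟩, hx'⟩ := fin_bound (T := range g) (range_nonempty g)
      (fun a ha => by
        obtain ⟨n, hn⟩ := (lt_ciSup_iff hbd).1 ha
        exact ⟨_, ⟨n, rfl⟩, hn⟩) hx
    refine lt_of_lt_of_le ?_ (hle (n + 1))
    rw [hgs]
    exact hf2 _ x hx' hk
  · refine lt_of_lt_of_le ?_ (hle 1)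
    rw [hgs]
    exact hf1 ⟨a, ha⟩

theorem omega2_lt_omega3 : (ω_ 2 : Ordinal.{0}) < ω_ 3 := by
  rw [Ordinal.omega_lt_omega]
  norm_num

theorem omega1_lt_omega2 : (ω_ 1 : Ordinal.{0}) < ω_ 2 := by
  rw [Ordinal.omega_lt_omega]
  norm_num

theorem C_gt {j : Ix} {a : Ordinal.{0}} (ha : a ∈ S.C j) : ω_ 2 < a :=
  ha.2 _ (S.sub _ (Or.inr (by simp [Ix.F]))) omega2_lt_omega3

theorem own {j : Ix} {a x : Ordinal.{0}} {l : List Ordinal.{0}} (ha : a ∈ S.C j)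
    (hl : ∀ o ∈ l, o < a) (hx : x ∈ S.H {o | o ∈ l ++ j.F}) (hk : x < ω_ 3) : x < a := by
  refine ha.2 x (S.mono _ _ (fun o ho => ?_) hx) hk
  rcases List.mem_append.1 ho with h | h
  · exact Or.inl (hl o h)
  · exact Or.inr h

theorem br_tp {j j' : Ix} {u : Node} (hu : u ∈ S.br j) (hu' : u ∈ S.br j')
    {l : List Ordinal.{0}} (hl : ∀ o ∈ l, o < u.1) : S.tp (l ++ j.F) = S.tp (l ++ j'.F) := by
  rw [← d_of_lt hl, ← d_of_lt hl, ← hu.2, ← hu'.2]

theorem br_ext {j : Ix} {u w : Node} (hu : u ∈ S.br j) (hw : w ∈ S.br j) (h : u.1 = w.1) :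
    u = w := Prod.ext h (by rw [hu.2, hw.2, h])

theorem down {j j' : Ix} {u w : Node} (hu : u ∈ S.br j) (hu' : u ∈ S.br j') (hw : w ∈ S.br j)
    (h : w.1 ≤ u.1) : w ∈ S.br j' := by
  refine ⟨⟨hw.1.1, fun x hx hk => ?_⟩, ?_⟩
  · have hxu : x < u.1 :=
      hu'.1.2 x (S.mono _ _ (union_subset_union_left _ (Iio_subset_Iio h)) hx) hk
    obtain ⟨l0, hl0, hx0⟩ := S.fin _ _ hx
    set l := l0.filter (fun o => o < w.1) with hl
    have hlw : ∀ o ∈ l, o < w.1 := fun o ho => by simpa using (List.mem_filter.1 ho).2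
    have hx1 : x ∈ S.H {o | o ∈ l ++ j'.F} := by
      refine S.mono _ _ (fun o ho => ?_) hx0
      rcases hl0 o ho with h1 | h1
      · exact List.mem_append_left _ (List.mem_filter.2 ⟨ho, by simpa using h1⟩)
      · exact List.mem_append_right _ h1
    have h2 : S.tp (x :: l ++ j'.F) = S.tp (x :: l ++ j.F) := by
      refine br_tp hu' hu fun o ho => ?_
      rcases List.mem_cons.1 ho with rfl | ho
      · exact hxu
      · exact (hlw o ho).trans_le h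
    exact own hw.1 hlw (tp_mem h2 hx1) hk
  · rw [hw.2]
    funext l
    by_cases hl : ∀ o ∈ l, o < w.1
    · rw [d_of_lt hl, d_of_lt hl]
      exact br_tp hu hu' fun o ho => (hl o ho).trans_le h
    · rw [d_of_not hl, d_of_not hl]

theorem not_Sm_one (θ : Ordinal.{0}) : ¬ S.Sm θ ω (ω_ 1) := fun h => by
  have h1 := S.sm_card _ _ _ h
  rw [Ordinal.card_omega, Ordinal.card_omega0, max_self] at h1
  exact absurd h1 (not_le.2 Cardinal.aleph0_lt_aleph_one)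

theorem not_Sm_three (θ : Ordinal.{0}) : ¬ S.Sm θ (ω_ 2) (ω_ 3) := fun h => by
  have h1 := S.sm_card _ _ _ h
  rw [Ordinal.card_omega, Ordinal.card_omega, max_eq_left (Cardinal.aleph0_le_aleph _),
    Cardinal.aleph_le_aleph] at h1
  norm_num at h1

end HullSys

end Pool.Agent.Lib.MP_0a8963_lc
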