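import Mathlib
import Pool.Agent.Lib.MP_0a8963_lc.KurepaA

set_option autoImplicit false

namespace Pool.Agent.Lib.MP_0a8963_lc

open Pool.Agent.Lib.ZFCForcing Cardinal Ordinal Set

theorem Ix.le_θ (j : Ix) {o : Ordinal.{0}} (ho : o ∈ j.F) : o ≤ j.θ := by
  have h3 := j.hk
  have h2 := HullSys.omega2_lt_omega3.trans h3
  have h1 := HullSys.omega1_lt_omega2.trans h2
  have h0 := Ordinal.omega0_lt_omega_one.trans h1
  simp only [Ix.F, List.mem_cons] at ho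
  rcases ho with rfl | rfl | rfl | rfl | rfl | ho
  exacts [h0.le, h1.le, h2.le, h3.le, le_rfl, (j.hF o ho).le]

theorem mk_lists_le (A : Set Ordinal.{0}) :
    #{L : List Ordinal.{0} | ∀ o ∈ L, o ∈ A} ≤ max ℵ₀ #A := by
  refine le_trans (Cardinal.mk_le_mk_of_subset (t := range fun L : List A => L.map Subtype.val)
    fun L hL => ⟨L.attachWith (· ∈ A) hL, List.attachWith_map_subtype_val hL⟩) ?_
  exact Cardinal.mk_range_le.trans (Cardinal.mk_list_le_max _)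

namespace HullSys

variable {S : HullSys}

open Classical in
/-- At most `ℵ₂` nodes on each level. -/
theorem T3 (a : Ordinal.{0}) : #{u : Node | u.1 = a ∧ ∃ j, u ∈ S.br j} ≤ ℵ_ 2 := by
  by_cases ha : a < ω_ 3
  swap
  · have : {u : Node | u.1 = a ∧ ∃ j, u ∈ S.br j} = ∅ := by
      refine eq_empty_of_forall_notMem ?_
      rintro u ⟨rfl, j, hj⟩
      exact ha hj.1.1
    rw [this]
    simp
  obtain ⟨b, hb, hb'⟩ := beta (S := S) (m := ω_ 2) (a := a) (Ordinal.omega0_le_omega 2)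
    (by rw [Ordinal.card_omega]; exact card_le_of_lt_omega3 ha)
  rw [Ordinal.card_omega] at hb
  let g : List Ordinal.{0} → Node := fun L =>
    (a, fun l => if ∀ o ∈ l, o < a then S.tp (l ++ L) else [])
  refine le_trans (Cardinal.mk_le_mk_of_subset (t := g '' {L | ∀ o ∈ L, o ∈ Iio b}) ?_)
    (Cardinal.mk_image_le.trans ((mk_lists_le _).trans (max_le (Cardinal.aleph0_le_aleph _) ?_)))
  swap
  · rw [Cardinal.mk_Iio_ordinal, Cardinal.lift_le_aleph_ofNat]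
    exact hb
  rintro u ⟨rfl, j, hj⟩
  set Z := S.H (Iio u.1 ∪ {o | o ∈ j.F}) with hZ
  have hI : ∀ x < u.1, x ∈ Z := fun x hx => S.sub _ (Or.inl hx)
  have hF : ∀ x ∈ j.F, x ∈ Z := fun x hx => S.sub _ (Or.inr hx)
  have hc : ∀ x < u.1, col Z x = x := fun x hx => col_eq_self fun y hy => hI y (hy.trans hx)
  have hk : col Z (ω_ 3) = u.1 := by
    refine eq_of_forall_lt_iff fun η => ?_
    rw [lt_col_iff]
    constructor
    · rintro ⟨ζ, h1, h2, h3⟩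
      have h4 := hj.1.2 ζ h1 h2
      rw [hc ζ h4] at h3
      exact h3 ▸ h4
    · intro h
      exact ⟨η, hI η h, h.trans ha, hc η h⟩
  have hθ : col Z j.θ < b := by
    refine hb' _ fun h => not_Sm_three (S := S) j.θ ?_
    rw [S.sm_tr Z j.θ (ω_ 2) (ω_ 3) (H_closed _) (hF _ (by simp [Ix.F])) (hF _ (by simp [Ix.F]))
      (hF _ (by simp [Ix.F])) (omega2_lt_omega3.trans j.hk) j.hk, hk, hc _ (C_gt hj.1)]
    exact h
  refine ⟨j.F.map (col Z), fun o ho => ?_, Prod.ext rfl ?_⟩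
  · obtain ⟨x, hx, rfl⟩ := List.mem_map.1 ho
    exact (col_mono Z (j.le_θ hx)).trans_lt hθ
  · rw [hj.2]
    funext l
    by_cases hl : ∀ o ∈ l, o < u.1
    · rw [d_of_lt hl, ← tp_inv (M := Z) (H_closed _) (l := l ++ j.F)]
      · have : l.map (col Z) = l := by
          conv_rhs => rw [← List.map_id l]
          exact List.map_congr_left fun o ho => hc o (hl o ho)
        rw [List.map_append, this]
        exact if_pos hl
      · intro o ho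
        rcases List.mem_append.1 ho with h | h
        exacts [hI o (hl o h), hF o h]
    · rw [d_of_not hl]
      exact if_neg hl

theorem mk_levels_le (A : Set Ordinal.{0}) :
    #{u : Node | u.1 ∈ A ∧ ∃ j, u ∈ S.br j} ≤ #A * ℵ_ 2 := by
  have : {u : Node | u.1 ∈ A ∧ ∃ j, u ∈ S.br j} =
      ⋃ a ∈ A, {u : Node | u.1 = a ∧ ∃ j, u ∈ S.br j} := by
    ext u
    simp
  rw [this]
  refine (Cardinal.mk_biUnion_le _ _).trans ?_
  gcongr
  exact ciSup_le' fun a => T3 a.1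

theorem mk_nodes_le : #{u : Node | ∃ j, u ∈ S.br j} ≤ ℵ_ 3 := by
  refine le_trans (Cardinal.mk_le_mk_of_subset
    (t := {u : Node | u.1 ∈ Iio (ω_ 3) ∧ ∃ j, u ∈ S.br j}) ?_) ((mk_levels_le _).trans ?_)
  · rintro u ⟨j, hj⟩
    exact ⟨hj.1.1, j, hj⟩
  · refine Cardinal.mul_le_of_le (Cardinal.aleph0_le_aleph _) ?_ ?_
    · rw [Cardinal.mk_Iio_ordinal, Cardinal.lift_le_aleph_ofNat, Ordinal.card_omega]
    · rw [Cardinal.aleph_le_aleph]
      norm_num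

theorem Ds_of_br {j j' : Ix} (h : S.br j = S.br j') (s : ℕ) {x : Ordinal.{0}} (hx : x < ω_ 3) :
    x ∈ S.Ds s j.θ j.F0 ↔ x ∈ S.Ds s j'.θ j'.F0 := by
  obtain ⟨c, hc, hxc⟩ := C_unb (S := S) j hx
  have hu : ((c, S.d j c) : Node) ∈ S.br j := ⟨hc, rfl⟩
  have h1 := br_tp hu (h ▸ hu) (l := [x]) (by simpa using hxc)
  have key : ∀ i : Ix, x ∈ S.Ds s i.θ i.F0 ↔
      col (S.H {a | a ∈ [x] ++ i.F}) x ∈ S.Ds s (col (S.H {a | a ∈ [x] ++ i.F}) i.θ)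
        (i.F0.map (col (S.H {a | a ∈ [x] ++ i.F}))) := fun i =>
    S.ds_tr _ s _ _ x (H_closed _) (S.sub _ (by simp [Ix.F]))
      (fun o ho => S.sub _ (by simp [Ix.F, ho])) (S.sub _ (by simp)) (hx.trans i.hk)
  rw [key j, key j']
  unfold tp at h1
  generalize S.H {a | a ∈ [x] ++ j.F} = Z at h1 ⊢
  generalize S.H {a | a ∈ [x] ++ j'.F} = Z' at h1 ⊢
  simp only [Ix.F, List.singleton_append, List.map_cons, List.cons.injEq] at h1
  obtain ⟨e1, -, -, -, -, e2, e3⟩ := h1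
  rw [e1, e2, e3]

theorem two_pow_aleph3 (h3 : (2 : Cardinal.{0}) ^ ℵ_ 3 = ℵ_ 4) :
    (2 : Cardinal.{1}) ^ ℵ_ 3 = ℵ_ 4 := by
  have := congrArg Cardinal.lift.{1} h3
  simpa using this

/-- There are at least `2 ^ ℵ₃` branches. -/
theorem many (h3 : (2 : Cardinal.{0}) ^ ℵ_ 3 = ℵ_ 4) : ℵ_ 4 ≤ #(range S.br) := by
  have hex : ∀ a : 𝒫 (Iio (ω_ 3 : Ordinal.{0})), ∃ s : ℕ, ∃ j : Ix, a.1 = S.Ds s j.θ j.F0 := by
    rintro ⟨a, ha⟩
    obtain ⟨s, θ, F, h1, h2, h3⟩ := S.ds_ex a _ ha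
    exact ⟨s, ⟨θ, F, h1, h2⟩, h3⟩
  choose s j hsj using hex
  let φ : 𝒫 (Iio (ω_ 3 : Ordinal.{0})) → ULift.{1} ℕ × range S.br :=
    fun a => (⟨s a⟩, ⟨S.br (j a), j a, rfl⟩)
  have hφ : Function.Injective φ := by
    intro a a' h
    have h1 : s a = s a' := congrArg (fun p => p.1.down) h
    have h2 : S.br (j a) = S.br (j a') := congrArg (fun p => p.2.1) h
    refine Subtype.ext (Set.ext fun x => ?_)
    by_cases hx : x < ω_ 3
    · rw [hsj a, hsj a', h1]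
      exact Ds_of_br h2 _ hx
    · exact iff_of_false (fun h => hx (a.2 h)) (fun h => hx (a'.2 h))
  have h4 := Cardinal.mk_le_of_injective hφ
  have h5 : #(Iio (ω_ 3 : Ordinal.{0})) = ℵ_ 3 := by
    rw [Cardinal.mk_Iio_ordinal, Cardinal.lift_eq_aleph_ofNat, Ordinal.card_omega]
  rw [Cardinal.mk_powerset, h5, two_pow_aleph3 h3, Cardinal.mk_prod, Cardinal.lift_id,
    Cardinal.lift_id, Cardinal.mk_uLift, Cardinal.mk_nat, Cardinal.lift_aleph0] at h4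
  by_contra hlt
  refine absurd h4 (not_le.2 (Cardinal.mul_lt_of_lt (Cardinal.aleph0_le_aleph _) ?_ (not_le.1 hlt)))
  rw [Cardinal.aleph0_lt_aleph]
  norm_num

variable (S) in
/-- The nodes below a node. -/
def below (t : Node) : Set Node := {u | ∃ j, t ∈ S.br j ∧ u ∈ S.br j ∧ u.1 ≤ t.1}

/-- The trace of a branch on a bounded set of nodes is read off from one node. -/
theorem top {j : Ix} {Y : Set Node} {δ : Ordinal.{0}} (hδ : δ < ω_ 3)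
    (hY : ∀ u ∈ Y, u.1 < ω_ 3 → u.1 < δ) (hne : (S.br j ∩ Y).Nonempty) :
    ∃ t ∈ S.br j, t.1 ≤ δ ∧ S.br j ∩ Y = S.below t ∩ Y ∧
      (t ∈ Y ∨ ∀ a < t.1, ∃ u ∈ S.br j ∩ Y, a < u.1 ∧ u.1 < t.1) := by
  set A := Prod.fst '' (S.br j ∩ Y) with hA
  have hA0 : A.Nonempty := hne.image _
  have hAδ : ∀ a ∈ A, a ≤ δ := by
    rintro _ ⟨u, hu, rfl⟩
    exact (hY u hu.2 hu.1.1.1).le
  have hbd : BddAbove A := ⟨δ, hAδ⟩
  have hs : sSup A ≤ δ := csSup_le hA0 hAδ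
  have hle : ∀ u ∈ S.br j ∩ Y, u.1 ≤ sSup A := fun u hu => le_csSup hbd ⟨u, hu, rfl⟩
  have hlt : ∀ a < sSup A, ∃ u ∈ S.br j ∩ Y, a < u.1 := fun a ha => by
    obtain ⟨_, ⟨u, hu, rfl⟩, h⟩ := (lt_csSup_iff hbd hA0).1 ha
    exact ⟨u, hu, h⟩
  have hC : sSup A ∈ S.C j := by
    refine C_closed (hs.trans_lt hδ) ?_ fun a ha => ?_
    · obtain ⟨u, hu⟩ := hne
      exact ⟨u.1, hu.1.1, hle u hu⟩
    · obtain ⟨u, hu, h⟩ := hlt a ha
      exact ⟨u.1, hu.1.1, h, hle u hu⟩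
  have ht : ((sSup A, S.d j (sSup A)) : Node) ∈ S.br j := ⟨hC, rfl⟩
  refine ⟨_, ht, hs, ?_, ?_⟩
  · ext u
    constructor
    · intro hu
      exact ⟨⟨j, ht, hu.1, hle u hu⟩, hu.2⟩
    · rintro ⟨⟨j', h1, h2, h3⟩, hu⟩
      exact ⟨down h1 ht h2 h3, hu⟩
  · by_cases h : ∃ u ∈ S.br j ∩ Y, u.1 = sSup A
    · obtain ⟨u, hu, h⟩ := h
      exact Or.inl (br_ext hu.1 ht h ▸ hu.2)
    · refine Or.inr fun a ha => ?_
      obtain ⟨u, hu, h'⟩ := hlt a ha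
      exact ⟨u, hu, h', (hle u hu).lt_of_ne fun e => h ⟨u, hu, e⟩⟩

theorem traces_subset {Y T : Set Node} {δ : Ordinal.{0}} (hδ : δ < ω_ 3)
    (hY : ∀ u ∈ Y, u.1 < ω_ 3 → u.1 < δ)
    (hT : ∀ j, ∀ t ∈ S.br j, t.1 ≤ δ →
      (t ∈ Y ∨ ∀ a < t.1, ∃ u ∈ S.br j ∩ Y, a < u.1 ∧ u.1 < t.1) → t ∈ T) :
    (range fun j => S.br j ∩ Y) ⊆ insert ∅ ((fun t => S.below t ∩ Y) '' T) := by
  rintro _ ⟨j, rfl⟩
  rcases (S.br j ∩ Y).eq_empty_or_nonempty with h | h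
  · exact Or.inl h
  · obtain ⟨t, h1, h2, h3, h4⟩ := top hδ hY h
    exact Or.inr ⟨t, hT j t h1 h2 h4, h3.symm⟩

theorem levels_bdd {Y : Set Node} (hY : #Y ≤ ℵ_ 2) :
    ∃ δ < ω_ 3, ∀ u ∈ Y, u.1 < ω_ 3 → u.1 < δ := by
  obtain ⟨δ, hδ, h⟩ := bdd_omega3 (A := Prod.fst '' Y) (Cardinal.mk_image_le.trans hY)
  exact ⟨δ, hδ, fun u hu => h _ ⟨u, hu, rfl⟩⟩

/-- At most `ℵ₂` traces on a set of at most `ℵ₂` nodes. -/
theorem K1 {Y : Set Node} (hY : #Y ≤ ℵ_ 2) : #(range fun j => S.br j ∩ Y) ≤ ℵ_ 2 := by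
  obtain ⟨δ, hδ, h⟩ := levels_bdd hY
  refine (Cardinal.mk_le_mk_of_subset (traces_subset
    (T := {u : Node | u.1 ∈ Iio (δ + 1) ∧ ∃ j, u ∈ S.br j}) hδ h
    fun j t h1 h2 _ => ⟨Order.lt_add_one_iff.2 h2, j, h1⟩)).trans ?_
  refine Cardinal.mk_insert_le.trans (Cardinal.add_le_of_le (Cardinal.aleph0_le_aleph _) ?_
    (Cardinal.one_le_aleph0.trans (Cardinal.aleph0_le_aleph _)))
  refine Cardinal.mk_image_le.trans ((mk_levels_le _).trans ?_)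
  exact Cardinal.mul_le_of_le (Cardinal.aleph0_le_aleph _)
    (mk_Iio_le ((Cardinal.isSuccLimit_omega 3).add_one_lt hδ)) le_rfl

end HullSys

end Pool.Agent.Lib.MP_0a8963_lc
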