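import Mathlib
import Pool.Agent.Lib.MP_0a8963_lc.KurepaA

set_option autoImplicit false

namespace Pool.Agent.Lib.MP_0a8963_lc

open Pool.Agent.Lib.ZFCForcing Cardinal Ordinal Set

theorem countable_of_rel {α β : Type*} {T : Set α} {P : Set β} (R : α → β → Prop)
    (h1 : ∀ t ∈ T, ∃ p ∈ P, R t p) (h2 : ∀ t t' p, R t p → R t' p → t = t') (hP : P.Countable) :
    T.Countable := by
  choose f hf1 hf2 using h1
  have := hP.to_subtype
  exact Function.Injective.countable (f := fun t : T => (⟨f t.1 t.2, hf1 _ _⟩ : P)) fun t t' e =>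
    Subtype.ext (h2 _ _ _ (hf2 t.1 t.2) (by
      rw [show f t.1 t.2 = f t'.1 t'.2 from congrArg Subtype.val e]
      exact hf2 _ _))

theorem countable_lists {α : Type*} {B : Set α} (hB : B.Countable) :
    {l : List α | ∀ o ∈ l, o ∈ B}.Countable := by
  have := hB.to_subtype
  refine (countable_range (List.map (Subtype.val : B → α))).mono fun l hl => ?_
  lift l to List B using hl
  exact ⟨l, rfl⟩

theorem countable_Iio_ord {b : Ordinal.{0}} (h : b.card ≤ ℵ₀) : (Iio b).Countable := by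
  rw [← le_aleph0_iff_set_countable, Cardinal.mk_Iio_ordinal]
  exact lift_le_aleph0.2 h

theorem exists_list_bound {s : Ordinal.{0}} (hs : 0 < s) (l : List Ordinal.{0})
    (hl : ∀ o ∈ l, o < s) : ∃ a < s, ∀ o ∈ l, o ≤ a := by
  induction l with
  | nil => exact ⟨0, hs, by simp⟩
  | cons x l ih =>
    obtain ⟨a, h1, h2⟩ := ih fun o ho => hl o (List.mem_cons_of_mem _ ho)
    refine ⟨max a x, max_lt h1 (hl x List.mem_cons_self), fun o ho => ?_⟩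
    rcases List.mem_cons.1 ho with rfl | ho
    · exact le_max_right _ _
    · exact (h2 o ho).trans (le_max_left _ _)

theorem omega_one_lt_two : (ω_ 1 : Ordinal.{0}) < ω_ 2 := omega_lt_omega.2 one_lt_two

theorem omega_two_lt_three : (ω_ 2 : Ordinal.{0}) < ω_ 3 :=
  omega_lt_omega.2 (by norm_num)

theorem Ix.le_theta (j : Ix) {o : Ordinal.{0}} (h : o ∈ j.F) : o ≤ j.θ := by
  have h3 := j.hk
  have h2 := omega_two_lt_three.trans h3
  have h1 := omega_one_lt_two.trans h2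
  simp only [Ix.F, List.mem_cons] at h
  rcases h with rfl | rfl | rfl | rfl | rfl | h
  · exact (omega0_lt_omega_one.trans h1).le
  · exact h1.le
  · exact h2.le
  · exact h3.le
  · exact le_rfl
  · exact (j.hF o h).le

namespace HullSys

variable {S : HullSys}

/-- the node `t` is a limit of nodes of `Y` along the branch of `j` -/
def Lim (S : HullSys) (Y : Set Node) (j : Ix) (t : Node) : Prop :=
  t ∈ S.br j ∧ ∀ a < t.1, ∃ u ∈ S.br j ∩ Y, a < u.1 ∧ u.1 < t.1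

theorem Lim.above {Y : Set Node} {j : Ix} {t : Node} (h : S.Lim Y j t) (l : List Ordinal.{0})
    (hl : ∀ o ∈ l, o < t.1) : ∃ u ∈ S.br j ∩ Y, (∀ o ∈ l, o < u.1) ∧ u.1 < t.1 := by
  obtain ⟨a, h1, h2⟩ := exists_list_bound (bot_le.trans_lt (C_gt h.1.1)) l hl
  obtain ⟨u, h3, h4, h5⟩ := h.2 a h1
  exact ⟨u, h3, fun o ho => (h2 o ho).trans_lt h4, h5⟩

theorem Lim.trace {Y : Set Node} {j : Ix} {t : Node} (h : S.Lim Y j t) {Z : Set Ordinal.{0}}
    (hZ : S.H Z ⊆ Z) (hY : ∀ u ∈ Y, ∃ j', u ∈ S.br j' ∧ ∀ o ∈ j'.F, o ∈ Z) {x : Ordinal.{0}}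
    (hx : x < t.1) : x ∈ S.H ((Z ∩ Iio t.1) ∪ {o | o ∈ j.F}) ↔ x ∈ Z := by
  classical
  refine ⟨fun h1 => ?_, fun h1 => S.sub _ (Or.inl ⟨h1, hx⟩)⟩
  obtain ⟨l0, h2, h3⟩ := S.fin _ _ h1
  let l := l0.filter fun o => decide (o ∈ Z ∩ Iio t.1)
  have hl : ∀ o ∈ l, o ∈ Z ∩ Iio t.1 := fun o ho => of_decide_eq_true (List.mem_filter.1 ho).2
  have h4 : x ∈ S.H {o | o ∈ l ++ j.F} := by
    refine S.mono _ _ (fun o ho => ?_) h3
    rcases h2 o ho with h5 | h5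
    · exact List.mem_append_left _ (List.mem_filter.2 ⟨ho, decide_eq_true h5⟩)
    · exact List.mem_append_right _ h5
  obtain ⟨u, ⟨h5, h6⟩, h7, -⟩ := h.above (x :: l) (by
    intro o ho
    rcases List.mem_cons.1 ho with rfl | ho
    · exact hx
    · exact (hl o ho).2)
  obtain ⟨j', h8, h9⟩ := hY u h6
  refine H_subset hZ (fun o ho => ?_) (tp_mem (br_tp h5 h8 h7) h4)
  rcases List.mem_append.1 ho with ho | ho
  · exact (hl o ho).1
  · exact h9 o ho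

theorem Lim.col_eq {Y : Set Node} {j : Ix} {t : Node} (h : S.Lim Y j t) {Z : Set Ordinal.{0}}
    (hZ : S.H Z ⊆ Z) (hY : ∀ u ∈ Y, ∃ j', u ∈ S.br j' ∧ ∀ o ∈ j'.F, o ∈ Z) {x : Ordinal.{0}}
    (hx : x ≤ t.1) : col (S.H ((Z ∩ Iio t.1) ∪ {o | o ∈ j.F})) x = col Z x :=
  col_congr fun _ hζ => h.trace hZ hY (hζ.trans_le hx)

theorem Lim.tp_eq {Y : Set Node} {j : Ix} {t : Node} (h : S.Lim Y j t) {Z : Set Ordinal.{0}}
    (hZ : S.H Z ⊆ Z) (hY : ∀ u ∈ Y, ∃ j', u ∈ S.br j' ∧ ∀ o ∈ j'.F, o ∈ Z)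
    {l : List Ordinal.{0}} (hl : ∀ o ∈ l, o ∈ Z ∩ Iio t.1) : S.tp (l ++ j.F) =
      S.tp (l.map (col Z) ++ j.F.map (col (S.H ((Z ∩ Iio t.1) ∪ {o | o ∈ j.F})))) := by
  rw [← tp_inv (M := S.H ((Z ∩ Iio t.1) ∪ {o | o ∈ j.F})) (H_closed _) (l := l ++ j.F),
    List.map_append, List.map_congr_left fun o ho => h.col_eq hZ hY (le_of_lt (hl o ho).2)]
  intro o ho
  rcases List.mem_append.1 ho with ho | ho
  · exact S.sub _ (Or.inl (hl o ho))
  · exact S.sub _ (Or.inr ho)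

/-- Only countably many nodes are limits of nodes of a countable set along a branch. -/
theorem K3 (Y : Set Node) (hY : Y.Countable) (hN : ∀ u ∈ Y, ∃ j, u ∈ S.br j) :
    {t : Node | ∃ j, t ∈ S.br j ∧
      ∀ a < t.1, ∃ u ∈ S.br j ∩ Y, a < u.1 ∧ u.1 < t.1}.Countable := by
  choose ju hju using hN
  have hw : ∀ u u' : Node, ∃ w : List Ordinal.{0}, ∀ l : List Ordinal.{0},
      (∀ o ∈ l, o < u.1) → (∀ o ∈ l, o < u'.1) → u.2 l ≠ u'.2 l →
        (∀ o ∈ w, o < u.1) ∧ (∀ o ∈ w, o < u'.1) ∧ u.2 w ≠ u'.2 w := by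
    intro u u'
    by_cases h : ∃ l : List Ordinal.{0}, (∀ o ∈ l, o < u.1) ∧ (∀ o ∈ l, o < u'.1) ∧ u.2 l ≠ u'.2 l
    · obtain ⟨l, hl⟩ := h
      exact ⟨l, fun _ _ _ _ => hl⟩
    · exact ⟨[], fun l h1 h2 h3 => (h ⟨l, h1, h2, h3⟩).elim⟩
  choose w hw using hw
  have := hY.to_subtype
  let A : Set Ordinal.{0} := Iio ω ∪ (⋃ u : Y, {o | o ∈ u.1.1 :: (ju u.1 u.2).F}) ∪
    ⋃ u : Y, ⋃ u' : Y, {o | o ∈ w u.1 u'.1}
  have hA : A.Countable := ((countable_Iio_ord card_omega0.le).union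
    (countable_iUnion fun u => (List.finite_toSet _).countable)).union
    (countable_iUnion fun u => countable_iUnion fun u' => (List.finite_toSet _).countable)
  let Z := S.H A
  have hZ : S.H Z ⊆ Z := H_closed A
  have hZc : ∀ ξ, (col Z ξ).card ≤ ℵ₀ := fun ξ => lift_le_aleph0.1
    ((card_col_le Z ξ).trans ((S.card A).trans
      (max_le (le_aleph0_iff_set_countable.2 hA) le_rfl)))
  have hZ1 : ∀ u ∈ Y, u.1 ∈ Z := fun u hu =>
    S.sub _ (Or.inl (Or.inr (mem_iUnion.2 ⟨⟨u, hu⟩, List.mem_cons_self⟩)))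
  have hZ2 : ∀ u ∈ Y, ∃ j', u ∈ S.br j' ∧ ∀ o ∈ j'.F, o ∈ Z := fun u hu => ⟨_, hju u hu,
    fun o ho => S.sub _ (Or.inl (Or.inr (mem_iUnion.2 ⟨⟨u, hu⟩, List.mem_cons_of_mem _ ho⟩)))⟩
  have hZ3 : ∀ u ∈ Y, ∀ u' ∈ Y, ∀ o ∈ w u u', o ∈ Z := fun u hu u' hu' o ho =>
    S.sub _ (Or.inr (mem_iUnion.2 ⟨⟨u, hu⟩, mem_iUnion.2 ⟨⟨u', hu'⟩, ho⟩⟩))
  obtain ⟨b, hb1, hb2⟩ := beta (S := S) (m := ω) (a := col Z (ω_ 1)) le_rfl
    ((hZc _).trans card_omega0.ge)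
  refine countable_of_rel (P := Iio (col Z (ω_ 3) + 1) ×ˢ {l | ∀ o ∈ l, o ∈ Iio b})
    (fun t p => ∃ j, S.Lim Y j t ∧
      p = (col Z t.1, j.F.map (col (S.H ((Z ∩ Iio t.1) ∪ {o | o ∈ j.F}))))) ?_ ?_
    ((countable_Iio_ord ?_).prod (countable_lists (countable_Iio_ord (hb1.trans card_omega0.le))))
  · rintro t ⟨j, h⟩
    replace h : S.Lim Y j t := h
    refine ⟨(_, _), ⟨?_, fun o ho => ?_⟩, j, h, rfl⟩
    · exact (col_mono Z h.1.1.1.le).trans_lt (lt_add_one _)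
    obtain ⟨o, ho', rfl⟩ := List.mem_map.1 ho
    refine (col_mono _ (j.le_theta ho')).trans_lt (hb2 _ fun h1 => not_Sm_one (S := S) j.θ ?_)
    have h2 := omega_one_lt_two.trans (C_gt h.1.1)
    have h3 := omega_one_lt_two.trans (omega_two_lt_three.trans j.hk)
    refine (S.sm_tr _ _ _ _ (H_closed ((Z ∩ Iio t.1) ∪ {o | o ∈ j.F}))
      (S.sub _ (Or.inr (by simp [Ix.F]))) (S.sub _ (Or.inr (by simp [Ix.F])))
      (S.sub _ (Or.inr (by simp [Ix.F]))) (omega0_lt_omega_one.trans h3) h3).2 ?_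
    rwa [h.col_eq hZ hZ2 h2.le, h.col_eq hZ hZ2 (omega0_lt_omega_one.trans h2).le,
      col_eq_self (Z := Z) (ξ := ω) fun ζ hζ => S.sub _ (Or.inl (Or.inl hζ))]
  · rintro ⟨s, e⟩ ⟨s', e'⟩ _ ⟨j, h, rfl⟩ ⟨j', h', h1⟩
    obtain ⟨h2, h3⟩ := Prod.ext_iff.1 h1
    have key : ∀ {j : Ix} {t : Node} {a : Ordinal.{0}}, S.Lim Y j t → a < t.1 →
        col Z a < col Z t.1 := by
      intro j t a h ha
      obtain ⟨u, h4, h5, h6⟩ := h.2 a ha
      exact (col_mono Z h5.le).trans_lt (col_lt_col (hZ1 u h4.2) h6)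
    obtain rfl : s = s' := by
      rcases lt_trichotomy s s' with h4 | h4 | h4
      · exact ((key h' h4).ne h2).elim
      · exact h4
      · exact ((key h h4).ne' h2).elim
    obtain rfl : e = S.d j s := h.1.2
    obtain rfl : e' = S.d j' s := h'.1.2
    refine Prod.ext rfl (funext fun l => ?_)
    show S.d j s l = S.d j' s l
    by_cases hl : ∀ o ∈ l, o < s
    · rw [d_of_lt hl, d_of_lt hl]
      by_contra hne
      obtain ⟨u, ⟨a1, a2⟩, a3, a4⟩ := h.above l hl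
      obtain ⟨u', ⟨b1, b2⟩, b3, -⟩ := h'.above l hl
      obtain ⟨c1, c2, c3⟩ := hw u u' l a3 b3 (by
        rwa [a1.2, b1.2, d_of_lt a3, d_of_lt b3])
      have h4 : ∀ o ∈ w u u', o ∈ Z ∩ Iio s := fun o ho =>
        ⟨hZ3 u a2 u' b2 o ho, (c1 o ho).trans a4⟩
      apply c3
      rw [a1.2, b1.2, d_of_lt c1, d_of_lt c2, h.tp_eq hZ hZ2 h4, h'.tp_eq hZ hZ2 h4]
      exact congrArg (fun x => S.tp (_ ++ x)) h3
    · rw [d_of_not hl, d_of_not hl]
  · rw [card_add_one]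
    exact add_le_of_le le_rfl (hZc _) one_le_aleph0

end HullSys

end Pool.Agent.Lib.MP_0a8963_lc
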