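import Mathlib
import Pool.Agent.Lib.MP_0a8963_lc.Col
import Pool.Agent.Lib.MP_0a8963_lc.KurepaB
import Pool.Agent.Lib.MP_0a8963_lc.KurepaC

set_option autoImplicit false

namespace Pool.Agent.Lib.MP_0a8963_lc

open Pool.Agent.Lib.ZFCForcing Cardinal Ordinal Set

/-- Countably many traces on a countable set of nodes. -/
theorem HullSys.K0 {S : HullSys} {Y : Set Node} (hY : Y.Countable)
    (hN : ∀ u ∈ Y, ∃ j, u ∈ S.br j) : (range fun j => S.br j ∩ Y).Countable := by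
  obtain ⟨δ, hδ, h⟩ := HullSys.levels_bdd
    ((Cardinal.le_aleph0_iff_set_countable.2 hY).trans (Cardinal.aleph0_le_aleph 2))
  refine Set.Countable.mono (HullSys.traces_subset (T := Y ∪ {t : Node | ∃ j, t ∈ S.br j ∧
      ∀ a < t.1, ∃ u ∈ S.br j ∩ Y, a < u.1 ∧ u.1 < t.1}) hδ h ?_) ?_
  · intro j t h1 _ h3
    exact h3.imp id fun h4 => ⟨j, h1, h4⟩
  · exact ((hY.union (HullSys.K3 Y hY hN)).image _).insert _

theorem kurepa (S : HullSys) (h3 : (2 : Cardinal.{0}) ^ ℵ_ 3 = ℵ_ 4) :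
    ∃ (I N : Type 1) (b : I → Set N) (lev : N → Ordinal.{0}),
      #I = ℵ_ 4 ∧ #N ≤ ℵ_ 3 ∧ Function.Injective b ∧ (∀ x, (b x).Nonempty) ∧
      (∀ x, ∀ u ∈ b x, ∀ w ∈ b x, lev u = lev w → u = w) ∧
      (∀ x x', ∀ u ∈ b x, u ∈ b x' → ∀ w ∈ b x, lev w < lev u → w ∈ b x') ∧
      (∀ Y : Set N, #Y ≤ ℵ₀ → #(Set.range fun x => b x ∩ Y) ≤ ℵ₀) ∧
      (∀ Y : Set N, #Y ≤ ℵ_ 2 → #(Set.range fun x => b x ∩ Y) ≤ ℵ_ 2) := by
  let N := {u : Node | ∃ j, u ∈ S.br j}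
  let b : range S.br → Set N := fun x => Subtype.val ⁻¹' x.1
  have hinj : Function.Injective b := by
    rintro ⟨_, j, rfl⟩ ⟨_, j', rfl⟩ h
    refine Subtype.ext (Set.ext fun u => ⟨fun hu => ?_, fun hu => ?_⟩)
    · have : (⟨u, j, hu⟩ : N) ∈ b ⟨_, j, rfl⟩ := hu
      rw [h] at this
      exact this
    · have : (⟨u, j', hu⟩ : N) ∈ b ⟨_, j', rfl⟩ := hu
      rw [← h] at this
      exact this
  have htr : ∀ Y : Set N, #(Set.range fun x => b x ∩ Y) ≤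
      #(range fun j => S.br j ∩ Subtype.val '' Y) := by
    intro Y
    refine le_trans (Cardinal.mk_le_mk_of_subset ?_)
      (Cardinal.mk_image_le (f := fun X : Set Node => (Subtype.val ⁻¹' X : Set N)))
    rintro _ ⟨⟨_, j, rfl⟩, rfl⟩
    refine ⟨_, ⟨j, rfl⟩, ?_⟩
    simp only [b, preimage_inter, preimage_image_eq _ Subtype.val_injective]
  refine ⟨range S.br, N, b, fun u => u.1.1, le_antisymm ?_ (HullSys.many h3),
    HullSys.mk_nodes_le, hinj, ?_, ?_, ?_, fun Y hY => (htr Y).trans ?_,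
    fun Y hY => (htr Y).trans (HullSys.K1 (Cardinal.mk_image_le.trans hY))⟩
  · refine (Cardinal.mk_le_of_injective hinj).trans ?_
    rw [Cardinal.mk_set, ← HullSys.two_pow_aleph3 h3]
    exact Cardinal.power_le_power_left two_ne_zero HullSys.mk_nodes_le
  · rintro ⟨_, j, rfl⟩
    obtain ⟨c, hc, -⟩ := HullSys.C_unb (S := S) j (Ordinal.omega_pos 3)
    exact ⟨⟨(c, S.d j c), j, hc, rfl⟩, hc, rfl⟩
  · rintro ⟨_, j, rfl⟩ u hu w hw h
    exact Subtype.ext (HullSys.br_ext hu hw h)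
  · rintro ⟨_, j, rfl⟩ ⟨_, j', rfl⟩ u hu hu' w hw h
    exact HullSys.down hu hu' hw h.le
  · refine Cardinal.le_aleph0_iff_set_countable.2 (HullSys.K0
      ((Cardinal.le_aleph0_iff_set_countable.1 hY).image _) ?_)
    rintro _ ⟨u, -, rfl⟩
    exact u.2

end Pool.Agent.Lib.MP_0a8963_lc
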