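import Mathlib
import Pool.Agent.Lib.MP_0a8963_lc.Defs

set_option autoImplicit false

namespace Pool.Agent.Lib.MP_0a8963_lc

open Pool.Agent.Lib.ZFCForcing Cardinal Ordinal Set

/-- On a set `Y` of size at most `c` the sections of `R` have at most `c` traces. -/
def ZTr (R D N : ZFSet.{0}) (c : Cardinal.{0}) : Prop :=
  ∀ Y, Y ⊆ N → Y.card ≤ c → ∃ W, W ⊆ D ∧ W.card ≤ c ∧ ∀ x ∈ D, ∃ x' ∈ W, ∀ u ∈ Y,
    (ZFSet.pair x u ∈ R ↔ ZFSet.pair x' u ∈ R)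

/-- The ground-model properties of the relation `R` that the forcing argument uses. -/
structure Nice (R E D N : ZFSet.{0}) : Prop where
  sub : ∀ z ∈ R, ∃ x ∈ D, ∃ u ∈ N, z = ZFSet.pair x u
  ne : ∀ x ∈ D, ∃ u, ZFSet.pair x u ∈ R
  inj : ∀ x ∈ D, ∀ x' ∈ D, (∀ u, ZFSet.pair x u ∈ R ↔ ZFSet.pair x' u ∈ R) → x = x'
  chain : ∀ x u w, ZFSet.pair x u ∈ R → ZFSet.pair x w ∈ R →
    ZFSet.pair u w ∈ E ∨ u = w ∨ ZFSet.pair w u ∈ E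
  down : ∀ x x' u w, ZFSet.pair x u ∈ R → ZFSet.pair x' u ∈ R → ZFSet.pair x w ∈ R →
    ZFSet.pair w u ∈ E → ZFSet.pair x' w ∈ R
  wf : ∀ A, A ⊆ N → A ≠ ∅ → ∃ a ∈ A, ∀ w ∈ A, ZFSet.pair w a ∉ E
  tr0 : ZTr R D N ℵ₀
  tr2 : ZTr R D N (ℵ_ 2)

end Pool.Agent.Lib.MP_0a8963_lc
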