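import Mathlib
import Pool.Agent.Lib.MP_0a8963_lc.LBasic
import Pool.Agent.Lib.MP_0a8963_lc.Cond
import Pool.Agent.Lib.MP_0a8963_lc.Kurepa
import Pool.Agent.Lib.MP_0a8963_lc.Nice

set_option autoImplicit false

namespace Pool.Agent.Lib.MP_0a8963_lc

open Pool.Agent.Lib.ZFCForcing Cardinal Ordinal Set

theorem card_L_omega' (o : Ordinal.{0}) : (L (ω_ o)).card = ℵ_ o := by
  refine le_antisymm ((card_L_le _).trans ?_) ?_
  · rw [card_omega]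
    exact max_le le_rfl (aleph0_le_aleph o)
  · rw [← card_omega]
    exact card_le_card_L _

theorem ztr_of {I N : Type 1} {b : I → Set N} {R D N0 : ZFSet.{0}} (e : I ≃ D) (c : N ↪ N0)
    (hR : ∀ p, p ∈ R ↔ ∃ x u, u ∈ b x ∧ p = ZFSet.pair (e x).1 (c u).1) {κ : Cardinal.{0}}
    (h : ∀ Y : Set N, #Y ≤ Cardinal.lift.{1} κ →
      #(Set.range fun x => b x ∩ Y) ≤ Cardinal.lift.{1} κ) : ZTr R D N0 κ := by
  intro Y _ hY
  have h1 := h {u | (c u).1 ∈ Y} (by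
    refine le_trans ?_ (Cardinal.lift_le.2 hY)
    rw [← ZFSet.cardinalMk_coe_sort]
    exact mk_le_of_injective (f := fun u => (⟨(c u.1).1, u.2⟩ : Y)) fun u w h =>
      Subtype.ext (c.injective (Subtype.ext (congrArg (fun y : Y => y.1) h))))
  choose g hg using fun τ : Set.range fun x => b x ∩ {u | (c u).1 ∈ Y} => τ.2
  refine ⟨D.sep fun a => ∃ τ, (e (g τ)).1 = a, ZFSet.sep_subset, ?_, fun x hx => ?_⟩
  · rw [← Cardinal.lift_le.{1}, ← ZFSet.cardinalMk_coe_sort]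
    refine le_trans (mk_le_of_surjective (f := fun τ =>
      ⟨(e (g τ)).1, ZFSet.mem_sep.2 ⟨(e _).2, τ, rfl⟩⟩) ?_) h1
    rintro ⟨a, ha⟩
    obtain ⟨-, τ, rfl⟩ := ZFSet.mem_sep.1 ha
    exact ⟨τ, rfl⟩
  · obtain ⟨i, hi⟩ := e.surjective ⟨x, hx⟩
    obtain rfl : (e i).1 = x := congrArg Subtype.val hi
    have key : ∀ i i', b i ∩ {u | (c u).1 ∈ Y} = b i' ∩ {u | (c u).1 ∈ Y} → ∀ u ∈ Y,
        ZFSet.pair (e i).1 u ∈ R → ZFSet.pair (e i').1 u ∈ R := by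
      intro i i' h2 u hu h3
      obtain ⟨x, w, h4, h5⟩ := (hR _).1 h3
      obtain ⟨h6, rfl⟩ := ZFSet.pair_inj.1 h5
      obtain rfl := e.injective (Subtype.ext h6)
      exact (hR _).2 ⟨i', w, ((Set.ext_iff.1 h2 w).1 ⟨h4, hu⟩).1, rfl⟩
    exact ⟨_, ZFSet.mem_sep.2 ⟨(e _).2, ⟨_, i, rfl⟩, rfl⟩, fun u hu =>
      ⟨key _ _ (hg ⟨_, i, rfl⟩).symm u hu, key _ _ (hg ⟨_, i, rfl⟩) u hu⟩⟩

theorem exists_nice (hL : ∀ x : ZFSet.{0}, ∃ o, x ∈ L o) :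
    ∃ R E, R ⊆ L (ω_ 4) ∧ E ⊆ L (ω_ 4) ∧ Nice R E (L (ω_ 4)) (L (ω_ 3)) := by
  obtain ⟨S⟩ := exists_hullSys hL
  obtain ⟨I, N, b, lev, h1, h2, h3, h4, h5, h6, h7, h8⟩ := kurepa S (by
    rw [gch hL (aleph0_le_aleph 3), succ_aleph]
    norm_num)
  obtain ⟨e⟩ : Nonempty (I ≃ L (ω_ 4)) := by
    rw [← Cardinal.eq, ZFSet.cardinalMk_coe_sort, card_L_omega', h1]
    simp
  obtain ⟨c⟩ : Nonempty (N ↪ L (ω_ 3)) := by
    rw [← le_def, ZFSet.cardinalMk_coe_sort, card_L_omega']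
    simpa using h2
  have h34 : L (ω_ 3) ⊆ L (ω_ 4) := L_mono (omega_le_omega.2 (by norm_num))
  have hp : ∀ x ∈ L (ω_ 4), ∀ y ∈ L (ω_ 4), ZFSet.pair x y ∈ L (ω_ 4) := fun x hx y hy =>
    pair_mem_L (isSuccLimit_omega 4) hx hy
  let R := (L (ω_ 4)).sep fun p => ∃ x u, u ∈ b x ∧ p = ZFSet.pair (e x).1 (c u).1
  let E := (L (ω_ 4)).sep fun p => ∃ u w, lev u < lev w ∧ p = ZFSet.pair (c u).1 (c w).1
  have hR : ∀ p, p ∈ R ↔ ∃ x u, u ∈ b x ∧ p = ZFSet.pair (e x).1 (c u).1 := fun p =>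
    ZFSet.mem_sep.trans ⟨fun h => h.2, fun ⟨x, u, h, h'⟩ =>
      ⟨h' ▸ hp _ (e x).2 _ (h34 (c u).2), x, u, h, h'⟩⟩
  have hE : ∀ p, p ∈ E ↔ ∃ u w, lev u < lev w ∧ p = ZFSet.pair (c u).1 (c w).1 := fun p =>
    ZFSet.mem_sep.trans ⟨fun h => h.2, fun ⟨x, u, h, h'⟩ =>
      ⟨h' ▸ hp _ (h34 (c x).2) _ (h34 (c u).2), x, u, h, h'⟩⟩
  have hR1 : ∀ {x a}, ZFSet.pair x a ∈ R → ∃ i u, u ∈ b i ∧ x = (e i).1 ∧ a = (c u).1 := by
    intro x a h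
    obtain ⟨i, u, a1, a2⟩ := (hR _).1 h
    exact ⟨i, u, a1, ZFSet.pair_inj.1 a2⟩
  have hR2 : ∀ {i a}, ZFSet.pair (e i).1 a ∈ R → ∃ u, u ∈ b i ∧ a = (c u).1 := by
    intro i a h
    obtain ⟨i', u, a1, a2, a3⟩ := hR1 h
    obtain rfl := e.injective (Subtype.ext a2)
    exact ⟨u, a1, a3⟩
  have hR3 : ∀ {i u}, ZFSet.pair (e i).1 (c u).1 ∈ R ↔ u ∈ b i := by
    intro i u
    refine ⟨fun h => ?_, fun h => (hR _).2 ⟨i, u, h, rfl⟩⟩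
    obtain ⟨w, a1, a2⟩ := hR2 h
    rwa [c.injective (Subtype.ext a2)]
  have hE1 : ∀ {a w}, ZFSet.pair a (c w).1 ∈ E → ∃ u, lev u < lev w ∧ a = (c u).1 := by
    intro a w h
    obtain ⟨u, w', a1, a2⟩ := (hE _).1 h
    obtain ⟨rfl, a3⟩ := ZFSet.pair_inj.1 a2
    obtain rfl := c.injective (Subtype.ext a3)
    exact ⟨u, a1, rfl⟩
  have he : ∀ x ∈ L (ω_ 4), ∃ i, (e i).1 = x := fun x hx =>
    ⟨e.symm ⟨x, hx⟩, by rw [e.apply_symm_apply]⟩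
  refine ⟨R, E, ZFSet.sep_subset, ZFSet.sep_subset, fun z hz => ?_, fun x hx => ?_,
    fun x hx x' hx' h => ?_, fun x u w hu hw => ?_, fun x x' u w a1 a2 a3 a4 => ?_,
    fun A _ hA => ?_, ztr_of e c hR (by simpa using h7), ztr_of e c hR (by simpa using h8)⟩
  · obtain ⟨i, u, -, rfl⟩ := (hR z).1 hz
    exact ⟨_, (e i).2, _, (c u).2, rfl⟩
  · obtain ⟨i, rfl⟩ := he x hx
    obtain ⟨u, hu⟩ := h4 i
    exact ⟨_, hR3.2 hu⟩
  · obtain ⟨i, rfl⟩ := he x hx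
    obtain ⟨i', rfl⟩ := he x' hx'
    rw [h3 (Set.ext fun u => hR3.symm.trans ((h _).trans hR3) : b i = b i')]
  · obtain ⟨i, u, a1, rfl, rfl⟩ := hR1 hu
    obtain ⟨w, a2, rfl⟩ := hR2 hw
    rcases lt_trichotomy (lev u) (lev w) with h | h | h
    · exact Or.inl ((hE _).2 ⟨u, w, h, rfl⟩)
    · exact Or.inr (Or.inl (by rw [h5 i u a1 w a2 h]))
    · exact Or.inr (Or.inr ((hE _).2 ⟨w, u, h, rfl⟩))
  · obtain ⟨i, u, b1, rfl, rfl⟩ := hR1 a1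
    obtain ⟨i', u', b2, rfl, b3⟩ := hR1 a2
    obtain rfl := c.injective (Subtype.ext b3)
    obtain ⟨w, b4, rfl⟩ := hE1 a4
    exact hR3.2 (h6 i i' u b1 b2 w (hR3.1 a3) b4)
  · by_cases h : ∃ o u, lev u = o ∧ (c u).1 ∈ A
    · obtain ⟨_, ⟨u, rfl, a1⟩, a2⟩ := wellFounded_lt.has_min {o | ∃ u, lev u = o ∧ (c u).1 ∈ A} h
      refine ⟨_, a1, fun w hw a3 => ?_⟩
      obtain ⟨w, a4, rfl⟩ := hE1 a3
      exact a2 _ ⟨w, rfl, hw⟩ a4
    · obtain ⟨a, ha⟩ := (ZFSet.eq_empty_or_nonempty A).resolve_left hA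
      refine ⟨a, ha, fun w _ a3 => ?_⟩
      obtain ⟨_, u, -, a4⟩ := (hE _).1 a3
      exact h ⟨_, u, rfl, (ZFSet.pair_inj.1 a4).2 ▸ ha⟩

/-- closure properties of the model -/
structure Big (M : ZFSet.{0}) : Prop where
  tr : M.IsTransitive
  sub : ∀ x ∈ M, ∀ y, y ⊆ x → y ∈ M
  prod : ∀ x ∈ M, ∀ y ∈ M, x.prod y ∈ M

/-- definable over `M` -/
def Df (M : ZFSet.{0}) (n : ℕ) (P : (Fin n → ZFSet.{0}) → Prop) : Prop :=
  ∃ φ : Fm n, ∀ v, (∀ i, v i ∈ M) → (Sat M φ v ↔ P v)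

namespace Df

variable {M : ZFSet.{0}} {n : ℕ} {P Q : (Fin n → ZFSet.{0}) → Prop}
  {T : ZFSet.{0} → (Fin n → ZFSet.{0}) → Prop}

theorem congr (h : Df M n P) (e : ∀ v, (∀ i, v i ∈ M) → (P v ↔ Q v)) : Df M n Q :=
  let ⟨φ, hφ⟩ := h
  ⟨φ, fun v hv => (hφ v hv).trans (e v hv)⟩

theorem mem (i j : Fin n) : Df M n fun v => v i ∈ v j := ⟨.mem i j, fun _ _ => Iff.rfl⟩

theorem eq (i j : Fin n) : Df M n fun v => v i = v j := ⟨.eq i j, fun _ _ => Iff.rfl⟩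

theorem not (h : Df M n P) : Df M n fun v => ¬ P v :=
  let ⟨φ, hφ⟩ := h
  ⟨.neg φ, fun v hv => not_congr (hφ v hv)⟩

theorem and (h : Df M n P) (h' : Df M n Q) : Df M n fun v => P v ∧ Q v :=
  let ⟨φ, hφ⟩ := h
  let ⟨ψ, hψ⟩ := h'
  ⟨.and φ ψ, fun v hv => and_congr (hφ v hv) (hψ v hv)⟩

theorem imp (h : Df M n P) (h' : Df M n Q) : Df M n fun v => P v → Q v :=
  (h.and h'.not).not.congr fun _ _ => by tauto

theorem or (h : Df M n P) (h' : Df M n Q) : Df M n fun v => P v ∨ Q v :=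
  (h.not.imp h').congr fun _ _ => by tauto

theorem iff (h : Df M n P) (h' : Df M n Q) : Df M n fun v => P v ↔ Q v :=
  ((h.imp h').and (h'.imp h)).congr fun _ _ => by tauto

theorem all (h : Df M (n + 1) fun w => T (w 0) fun i => w i.succ) :
    Df M n fun v => ∀ x ∈ M, T x v :=
  let ⟨φ, hφ⟩ := h
  ⟨.all φ, fun v hv => forall₂_congr fun x hx => hφ (Fin.cons x v) (cons_mem hx hv)⟩

theorem ball (hM : Big M) (j : Fin n) (h : Df M (n + 1) fun w => T (w 0) fun i => w i.succ) :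
    Df M n fun v => ∀ x ∈ v j, T x v :=
  (all (T := fun x v => x ∈ v j → T x v) ((mem 0 j.succ).imp h)).congr fun _ hv =>
    ⟨fun h x hx => h x (hM.tr _ (hv j) hx) hx, fun h x _ => h x⟩

theorem bex (hM : Big M) (j : Fin n) (h : Df M (n + 1) fun w => T (w 0) fun i => w i.succ) :
    Df M n fun v => ∃ x ∈ v j, T x v :=
  (ball (T := fun x v => ¬ T x v) hM j h.not).not.congr fun _ _ => by
    push Not
    rfl

theorem subset (hM : Big M) (i j : Fin n) : Df M n fun v => v i ⊆ v j :=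
  ball (T := fun x v => x ∈ v j) hM i (mem 0 j.succ)

theorem sall (hM : Big M) (j : Fin n) (h : Df M (n + 1) fun w => T (w 0) fun i => w i.succ) :
    Df M n fun v => ∀ x, x ⊆ v j → T x v :=
  (all (T := fun x v => x ⊆ v j → T x v) ((subset hM 0 j.succ).imp h)).congr fun _ hv =>
    ⟨fun h x hx => h x (hM.sub _ (hv j) x hx) hx, fun h x _ => h x⟩

theorem sex (hM : Big M) (j : Fin n) (h : Df M (n + 1) fun w => T (w 0) fun i => w i.succ) :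
    Df M n fun v => ∃ x, x ⊆ v j ∧ T x v :=
  (sall (T := fun x v => ¬ T x v) hM j h.not).not.congr fun _ _ => by
    push Not
    rfl

theorem app (hM : Big M) (f x y : Fin n) : Df M n fun v => ZFSet.pair (v x) (v y) ∈ v f :=
  ⟨appF f x y, fun _ hv => sat_appF hM.tr f x y hv⟩

theorem up (hM : Big M) (z a b : Fin n) : Df M n fun v => v z = {v a, v b} :=
  ⟨upF z a b, fun _ hv => sat_upF hM.tr z a b hv⟩

theorem pair (hM : Big M) (z a b : Fin n) : Df M n fun v => v z = ZFSet.pair (v a) (v b) :=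
  (bex (T := fun s v => ∃ t ∈ v z, s = {v a, v a} ∧ t = {v a, v b} ∧ v z = {s, t}) hM z
    (bex (T := fun t w => w 0 = {w a.succ, w a.succ} ∧ t = {w a.succ, w b.succ} ∧
      w z.succ = {w 0, t}) hM z.succ ((up hM _ _ _).and ((up hM _ _ _).and (up hM _ _ _))))).congr
    fun v _ => ⟨by
      rintro ⟨_, -, _, -, rfl, rfl, h⟩
      rwa [ZFSet.pair_eq_singleton] at h, fun h =>
      ⟨{v a}, h ▸ ZFSet.mem_pair.2 (Or.inl rfl), {v a, v b}, h ▸ ZFSet.mem_pair.2 (Or.inr rfl),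
        (ZFSet.pair_eq_singleton _).symm, rfl, h⟩⟩

theorem card (hM : Big M) (y x : Fin n) : Df M n fun v => (v y).card ≤ (v x).card :=
  ⟨geF x y, fun _ hv => (sat_geF hM.tr x y hv).trans ⟨fun ⟨_, _, h⟩ => h.card_le, fun h =>
    let ⟨f, h1, h2⟩ := exists_onto h
    ⟨f, hM.sub _ (hM.prod _ (hv x) _ (hv y)) f h1, h2⟩⟩⟩

theorem ztr (hM : Big M) (r d k o : Fin n) : Df M n fun v => ZTr (v r) (v d) (v k) (v o).card :=
  sall hM k ((card hM _ _).imp (sex hM _ ((card hM _ _).and (ball hM _ (bex hM _ (ball hM _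
    ((app hM _ _ _).iff (app hM _ _ _))))))))

end Df

/-- bounded form of `Nice` -/
def NiceB (R E D N O O' : ZFSet.{0}) : Prop :=
  (∀ z ∈ R, ∃ x ∈ D, ∃ u ∈ N, z = ZFSet.pair x u) ∧ (∀ x ∈ D, ∃ u ∈ N, ZFSet.pair x u ∈ R) ∧
  (∀ x ∈ D, ∀ x' ∈ D, (∀ u ∈ N, ZFSet.pair x u ∈ R ↔ ZFSet.pair x' u ∈ R) → x = x') ∧
  (∀ x ∈ D, ∀ u ∈ N, ∀ w ∈ N, ZFSet.pair x u ∈ R → ZFSet.pair x w ∈ R →
    ZFSet.pair u w ∈ E ∨ u = w ∨ ZFSet.pair w u ∈ E) ∧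
  (∀ x ∈ D, ∀ x' ∈ D, ∀ u ∈ N, ∀ w ∈ N, ZFSet.pair x u ∈ R → ZFSet.pair x' u ∈ R →
    ZFSet.pair x w ∈ R → ZFSet.pair w u ∈ E → ZFSet.pair x' w ∈ R) ∧
  (∀ A, A ⊆ N → ∀ a₀ ∈ A, ∃ a ∈ A, ∀ w ∈ A, ZFSet.pair w a ∉ E) ∧
  ZTr R D N O.card ∧ ZTr R D N O'.card

theorem df_niceB {M : ZFSet.{0}} (hM : Big M) :
    Df M 6 fun v => NiceB (v 0) (v 1) (v 2) (v 3) (v 4) (v 5) :=
  (Df.ball hM _ (.bex hM _ (.bex hM _ (.pair hM _ _ _)))).and <|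
  (Df.ball hM _ (.bex hM _ (.app hM _ _ _))).and <|
  (Df.ball hM _ (.ball hM _ (.imp (.ball hM _ (.iff (.app hM _ _ _) (.app hM _ _ _)))
    (.eq _ _)))).and <|
  (Df.ball hM _ (.ball hM _ (.ball hM _ (.imp (.app hM _ _ _) (.imp (.app hM _ _ _)
    (.or (.app hM _ _ _) (.or (.eq _ _) (.app hM _ _ _)))))))).and <|
  (Df.ball hM _ (.ball hM _ (.ball hM _ (.ball hM _ (.imp (.app hM _ _ _) (.imp (.app hM _ _ _)
    (.imp (.app hM _ _ _) (.imp (.app hM _ _ _) (.app hM _ _ _))))))))).and <|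
  (Df.sall hM _ (.ball hM _ (.bex hM _ (.ball hM _ (.not (.app hM _ _ _)))))).and <|
  (Df.ztr hM _ _ _ _).and (Df.ztr hM _ _ _ _)

theorem niceB_iff {R E D N O O' : ZFSet.{0}} (h0 : O.card = ℵ₀) (h2 : O'.card = ℵ_ 2) :
    NiceB R E D N O O' ↔ Nice R E D N := by
  have key : (∀ z ∈ R, ∃ x ∈ D, ∃ u ∈ N, z = ZFSet.pair x u) →
      ∀ {x u}, ZFSet.pair x u ∈ R → x ∈ D ∧ u ∈ N := by
    intro h x u hx
    obtain ⟨x', a1, u', a2, a3⟩ := h _ hx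
    obtain ⟨rfl, rfl⟩ := ZFSet.pair_inj.1 a3
    exact ⟨a1, a2⟩
  rw [NiceB, h0, h2]
  constructor
  · rintro ⟨a1, a2, a3, a4, a5, a6, a7, a8⟩
    have k := @key a1
    refine ⟨a1, fun x hx => (a2 x hx).imp fun _ h => h.2,
      fun x hx x' hx' h => a3 x hx x' hx' fun u _ => h u,
      fun x u w hu hw => a4 x (k hu).1 u (k hu).2 w (k hw).2 hu hw,
      fun x x' u w b1 b2 b3 => a5 x (k b1).1 x' (k b2).1 u (k b1).2 w (k b3).2 b1 b2 b3,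
      fun A hA hne => ?_, a7, a8⟩
    obtain ⟨a, ha⟩ := (ZFSet.eq_empty_or_nonempty A).resolve_left hne
    exact a6 A hA a ha
  · intro h
    have k := @key h.sub
    exact ⟨h.sub, fun x hx => (h.ne x hx).imp fun _ hu => ⟨(k hu).2, hu⟩,
      fun x hx x' hx' e => h.inj x hx x' hx' fun u =>
        ⟨fun b => (e u (k b).2).1 b, fun b => (e u (k b).2).2 b⟩,
      fun x _ u _ w _ => h.chain x u w, fun x _ x' _ u _ w _ => h.down x x' u w,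
      fun A hA a ha => h.wf A hA fun e => ZFSet.notMem_empty a (e ▸ ha), h.tr0, h.tr2⟩

theorem mem_L_five (hL : ∀ x : ZFSet.{0}, ∃ o, x ∈ L o) {x : ZFSet.{0}} {a : Ordinal.{0}}
    (hx : x ⊆ L a) (ha : a < ω_ 5) : x ∈ L (ω_ 5) := by
  have h5 : Order.succ (ℵ_ 4 : Cardinal.{0}) = ℵ_ 5 := by
    rw [succ_aleph]
    norm_num
  have := rich hL hx (aleph0_le_aleph 4) (by rwa [← Order.lt_succ_iff, h5, ← lt_ord, ord_aleph])
  rwa [h5, ord_aleph] at this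

theorem big_L_five (hL : ∀ x : ZFSet.{0}, ∃ o, x ∈ L o) : Big (L (ω_ 5)) := by
  refine ⟨L_trans _, fun x hx y hy => ?_, fun x hx y hy => ?_⟩
  · obtain ⟨a, h1, h2⟩ := mem_L.1 hx
    exact mem_L_five hL (fun z hz => subset_of_mem_Def h2 (hy hz)) h1
  · obtain ⟨a, h1, h2⟩ := mem_L.1 hx
    obtain ⟨b, h3, h4⟩ := mem_L.1 hy
    refine mem_L_five hL (a := max a b + ω) (fun z hz => ?_) ?_
    · obtain ⟨c, h5, d, h6, rfl⟩ := ZFSet.mem_prod.1 hz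
      exact pair_mem_L (isSuccLimit_add _ isSuccLimit_omega0)
        (L_mono ((le_max_left _ _).trans le_self_add) (subset_of_mem_Def h2 h5))
        (L_mono ((le_max_right _ _).trans le_self_add) (subset_of_mem_Def h4 h6))
    · exact isPrincipal_add_omega 5 (max_lt h1 h3)
        (omega0_lt_omega_one.trans_le (omega_le_omega.2 (by norm_num)))

theorem reflect (hL : ∀ x : ZFSet.{0}, ∃ o, x ∈ L o) {δ : Ordinal.{0}} (h4 : ω_ 4 < δ)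
    (hel : Elem (L δ) (L (ω_ 5))) :
    ∃ R ∈ L δ, ∃ E, Nice R E (L (ω_ 4)) (L (ω_ 3)) := by
  obtain ⟨R, E, hR, hE, h⟩ := exists_nice hL
  obtain ⟨φ, hφ⟩ := df_niceB (big_L_five hL)
  have h45 : (ω_ 4 : Ordinal.{0}) < ω_ 5 := omega_lt_omega.2 (by norm_num)
  let v : Fin 4 → ZFSet.{0} := ![L (ω_ 4), L (ω_ 3), L (ω_ 0), L (ω_ 2)]
  have hv : ∀ i, v i ∈ L δ := by
    intro i
    fin_cases i
    · exact L_mem_L.2 h4
    all_goals exact L_mem_L.2 ((omega_le_omega.2 (by norm_num)).trans_lt h4)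
  have hv' : ∀ i, v i ∈ L (ω_ 5) := fun i => hel.1 (hv i)
  have key : ∀ R ∈ L (ω_ 5), ∀ E ∈ L (ω_ 5), Sat (L (ω_ 5)) φ (Fin.cons R (Fin.cons E v)) ↔
      Nice R E (L (ω_ 4)) (L (ω_ 3)) := fun R hR E hE =>
    (hφ _ (cons_mem hR (cons_mem hE hv'))).trans
      (niceB_iff ((card_L_omega' 0).trans aleph_zero) (card_L_omega' 2))
  have h1 := (hel.2 _ (exF (exF φ)) v hv).2 ((sat_exF _ _ _).2 ⟨E, mem_L_five hL hE h45,
    (sat_exF _ _ _).2 ⟨R, mem_L_five hL hR h45,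
      (key R (mem_L_five hL hR h45) E (mem_L_five hL hE h45)).2 h⟩⟩)
  obtain ⟨E', a1, a2⟩ := (sat_exF _ _ _).1 h1
  obtain ⟨R', a3, a4⟩ := (sat_exF _ _ _).1 a2
  exact ⟨R', a3, E', (key R' (hel.1 a3) E' (hel.1 a1)).1
    ((hel.2 _ φ _ (cons_mem a3 (cons_mem a1 hv))).1 a4)⟩

end Pool.Agent.Lib.MP_0a8963_lc
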