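import Mathlib
import Pool.Agent.Lib.MP_0a8963_lc.Nice
import Pool.Agent.Lib.MP_0a8963_lc.F.Main

set_option autoImplicit false

namespace Pool.Agent.Lib.MP_0a8963_lc

open Cardinal Ordinal Set

/-- the elements of a set, indexed by a small type -/
noncomputable def el (A : ZFSet.{0}) (j : Shrink.{0} A) : ZFSet.{0} := ((equivShrink A).symm j).1

theorem el_mem (A : ZFSet.{0}) (j : Shrink.{0} A) : el A j ∈ A := ((equivShrink A).symm j).2

theorem el_inj (A : ZFSet.{0}) : Function.Injective (el A) := fun _ _ h =>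
  (equivShrink A).symm.injective (Subtype.ext h)

theorem el_surj {A x : ZFSet.{0}} (h : x ∈ A) : ∃ j, el A j = x :=
  ⟨equivShrink A ⟨x, h⟩, by simp [el]⟩

theorem ZTr.traces {R D N : ZFSet.{0}} {c : Cardinal.{0}} (h : ZTr R D N c) {J Z : Type}
    (u : J → ZFSet.{0}) (v : Z → ZFSet.{0}) (hu : ∀ j, u j ∈ D) (Y : Set Z) (hv : ∀ z, v z ∈ N)
    (hY : #Y ≤ c) : #(Set.range fun j => {z ∈ Y | ZFSet.pair (u j) (v z) ∈ R}) ≤ c := by
  obtain ⟨W, -, h2, h3⟩ := h (N.sep fun a => ∃ z ∈ Y, v z = a)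
    (fun _ ha => (ZFSet.mem_sep.1 ha).1) (by
      refine le_trans ?_ hY
      choose f hf1 hf2 using fun j => (ZFSet.mem_sep.1 (el_mem (N.sep fun a => ∃ z ∈ Y, v z = a) j)).2
      exact mk_le_of_injective (f := fun j => (⟨f j, hf1 j⟩ : Y)) fun i j e =>
        el_inj _ ((hf2 i).symm.trans ((congrArg (fun y : Y => v y.1) e).trans (hf2 j))))
  refine le_trans (mk_le_mk_of_subset ?_) ((mk_range_le
    (f := fun w => {z ∈ Y | ZFSet.pair (el W w) (v z) ∈ R})).trans h2)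
  rintro _ ⟨j, rfl⟩
  obtain ⟨x, hx, h4⟩ := h3 _ (hu j)
  obtain ⟨w, rfl⟩ := el_surj hx
  refine ⟨w, Set.ext fun z => and_congr_right fun hz => (h4 _ ?_).symm⟩
  exact ZFSet.mem_sep.2 ⟨hv z, z, hz, rfl⟩

theorem fam_of_nice (h2 : (2 : Cardinal.{0}) ^ (ℵ_ 2 : Cardinal.{0}) = ℵ_ 3) {R E D N : ZFSet.{0}}
    (h : Nice R E D N) (hD : D.card = ℵ_ 4) (hN : N.card ≤ ℵ_ 3) : Nonempty (Fam R) := by
  let A : ZFSet.{0} := N.sep fun a => ∃ x, ZFSet.pair x a ∈ R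
  have h1 : ∀ {x a}, ZFSet.pair x a ∈ R → x ∈ D ∧ a ∈ A := by
    intro x a hx
    obtain ⟨x', h3, a', h4, h5⟩ := h.sub _ hx
    obtain ⟨rfl, rfl⟩ := ZFSet.pair_inj.1 h5
    exact ⟨h3, ZFSet.mem_sep.2 ⟨h4, x, hx⟩⟩
  have hv : ∀ z, el A z ∈ N := fun z => (ZFSet.mem_sep.1 (el_mem A z)).1
  have hdist : ∀ j j', (∀ z, ZFSet.pair (el D j) (el A z) ∈ R ↔
      ZFSet.pair (el D j') (el A z) ∈ R) → j = j' := by
    intro j j' e
    refine el_inj D (h.inj _ (el_mem D j) _ (el_mem D j') fun a => ⟨fun h3 => ?_, fun h3 => ?_⟩)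
    · obtain ⟨z, rfl⟩ := el_surj (h1 h3).2
      exact (e z).1 h3
    · obtain ⟨z, rfl⟩ := el_surj (h1 h3).2
      exact (e z).2 h3
  let r : Shrink.{0} A → Shrink.{0} A → Prop := fun z z' => ZFSet.pair (el A z) (el A z') ∈ E
  have hr : IsWellFounded _ r := by
    refine ⟨WellFounded.wellFounded_iff_has_min.2 fun S ⟨z, hz⟩ => ?_⟩
    obtain ⟨a, h3, h4⟩ := h.wf (N.sep fun a => ∃ z ∈ S, el A z = a)
      (fun _ ha => (ZFSet.mem_sep.1 ha).1) fun e =>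
        ZFSet.notMem_empty (el A z) (e ▸ ZFSet.mem_sep.2 ⟨hv z, z, hz, rfl⟩)
    obtain ⟨-, m, hm, rfl⟩ := ZFSet.mem_sep.1 h3
    exact ⟨m, hm, fun w hw => h4 _ (ZFSet.mem_sep.2 ⟨hv w, w, hw, rfl⟩)⟩
  refine ⟨⟨Shrink D, Shrink A, el D, el A, fun j z => ZFSet.pair (el D j) (el A z) ∈ R, el_inj D,
    el_inj A, fun p => ⟨fun hp => ?_, fun ⟨_, _, h3, h4⟩ => h4 ▸ h3⟩, hD, ?_,
    (ZFSet.card_mono fun _ ha => (ZFSet.mem_sep.1 ha).1).trans hN, fun j => ?_, fun z => ?_, hdist,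
    fun Y hY => h.tr2.traces _ _ (el_mem D) Y hv hY,
    cotrace_le _ (IsWellFounded.rank r) fun j z z' h3 h4 h5 i h6 => ?_, fun Y hY =>
      le_aleph0_iff_set_countable.1
        (h.tr0.traces _ _ (el_mem D) Y hv (le_aleph0_iff_set_countable.2 hY))⟩⟩
  · obtain ⟨x, -, a, -, rfl⟩ := h.sub _ hp
    obtain ⟨j, rfl⟩ := el_surj (h1 hp).1
    obtain ⟨z, rfl⟩ := el_surj (h1 hp).2
    exact ⟨j, z, hp, rfl⟩
  · by_contra hc
    have h3 : #(Shrink.{0} D) ≤ #(Set (Shrink.{0} A)) := mk_le_of_injective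
      (f := fun j => {z | ZFSet.pair (el D j) (el A z) ∈ R}) fun j j' e =>
        hdist j j' (Set.ext_iff.1 e)
    have h4 : (ℵ_ 4 : Cardinal.{0}) ≤ ℵ_ 3 := by
      rw [← hD, ← h2]
      refine h3.trans ?_
      rw [mk_set]
      exact power_le_power_left two_ne_zero ((not_le.1 hc).le.trans aleph_one_lt_two.le)
    exact h4.not_gt (aleph_lt_aleph.2 (three_add_one ▸ lt_add_one _))
  · obtain ⟨a, ha⟩ := h.ne _ (el_mem D j)
    obtain ⟨z, rfl⟩ := el_surj (h1 ha).2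
    exact ⟨z, ha⟩
  · obtain ⟨x, hx⟩ := (ZFSet.mem_sep.1 (el_mem A z)).2
    obtain ⟨j, rfl⟩ := el_surj (h1 hx).1
    exact ⟨j, hx⟩
  · rcases h.chain _ _ _ h3 h4 with h7 | h7 | h7
    · exact h.down _ _ _ _ h4 h6 h3 h7
    · rwa [h7]
    · exact (h5.not_gt (IsWellFounded.rank_lt_of_rel (r := r) h7)).elim

end Pool.Agent.Lib.MP_0a8963_lc
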