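import Mathlib
import Pool.Agent.Lib.MP_0a8963_lc.Reflect
import Pool.Agent.Lib.MP_0a8963_lc.ToFam

set_option autoImplicit false

namespace Pool.Agent.Lib.MP_0a8963_lc

open Pool.Agent.Lib.ZFCForcing Pool.Agent.Lib.MP_5d9fac_lc Cardinal Ordinal Set

theorem card_L_omega (o : Ordinal.{0}) : (L (ω_ o)).card = ℵ_ o := by
  refine le_antisymm ((card_L_le _).trans ?_) ?_
  · rw [card_omega]
    exact max_le le_rfl (aleph0_le_aleph o)
  · rw [← card_omega]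
    exact card_le_card_L _

theorem rel_appF {M R : ZFSet.{0}} (hM : M.IsTransitive) (hR : R ∈ M)
    (h : ∀ z ∈ R, ∃ x y, z = ZFSet.pair x y) : rel M (appF (2 : Fin 3) 0 1) (fun _ => R) = R := by
  have key : ∀ x ∈ M, ∀ y ∈ M, Sat M (appF (2 : Fin 3) 0 1)
      (Fin.cons x (Fin.cons y fun _ : Fin 1 => R)) ↔ ZFSet.pair x y ∈ R := by
    intro x hx y hy
    refine sat_appF hM _ _ _ fun i => ?_
    refine Fin.cases hx (fun i => ?_) i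
    exact Fin.cases hy (fun _ => hR) i
  ext z
  rw [rel, ZFSet.mem_sep, ZFSet.mem_prod]
  constructor
  · rintro ⟨⟨x, hx, y, hy, rfl⟩, x', y', h1, h2⟩
    obtain ⟨rfl, rfl⟩ := ZFSet.pair_inj.1 h1
    exact (key x hx y hy).1 h2
  · intro hz
    obtain ⟨x, y, rfl⟩ := h z hz
    obtain ⟨hx, hy⟩ := mem_of_pair_mem hM hR hz
    exact ⟨⟨x, hx, y, hy, rfl⟩, x, y, rfl, (key x hx y hy).2 hz⟩

theorem main (hL : ∀ x : ZFSet.{0}, ∃ o, x ∈ L o) (δ : Ordinal.{0}) (h4 : ω_ 4 < δ)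
    (hel : Elem (L δ) (L (ω_ 5))) :
    ∃ (k : ℕ) (ψ : Fm (k + 2)) (v : Fin k → ZFSet.{0}), (∀ i, v i ∈ L δ) ∧
      ∀ U : Ult (RO Nm), Good (Mem U) (cl U (chk (rel (L δ) ψ v))) := by
  obtain ⟨R, hR, E, h⟩ := reflect hL h4 hel
  have h0 : (2 : Cardinal.{0}) ^ ℵ₀ = ℵ_ 1 := by
    rw [gch hL le_rfl, succ_aleph0]
  have h2 : (2 : Cardinal.{0}) ^ (ℵ_ 2 : Cardinal.{0}) = ℵ_ 3 := by
    rw [gch hL (aleph0_le_aleph 2), succ_aleph, two_add_one_eq_three]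
  obtain ⟨F⟩ := fam_of_nice h2 h (card_L_omega 4) (card_L_omega 3).le
  refine ⟨1, appF (2 : Fin 3) 0 1, fun _ => R, fun _ => hR, fun U => ?_⟩
  rw [rel_appF (L_trans δ) hR fun z hz => ?_]
  · exact good_of_fam h0 h2 F U
  · obtain ⟨x, -, y, -, e⟩ := h.sub z hz
    exact ⟨x, y, e⟩

end Pool.Agent.Lib.MP_0a8963_lc
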