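import Mathlib
import Pool.Agent.Lib.MP_0a8963_lc.LBasic
import Pool.Agent.Lib.MP_0a8963_lc.Nice

set_option autoImplicit false

namespace Pool.Agent.Lib.MP_0a8963_lc

open Pool.Agent.Lib.ZFCForcing Cardinal Ordinal Set

theorem ztr_of_family {R D M : ZFSet.{0}} {I N : Type 1} (e : I ≃ D) (c : N ↪ M)
    (b : I → Set N)
    (hR : ∀ x u, ZFSet.pair x u ∈ R ↔ ∃ i, ∃ w ∈ b i, (e i).1 = x ∧ (c w).1 = u)
    {k : Cardinal.{0}}
    (h : ∀ Y : Set N, #Y ≤ Cardinal.lift.{1} k →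
      #(Set.range fun x => b x ∩ Y) ≤ Cardinal.lift.{1} k) : ZTr R D M k := by
  intro Y _ hk
  have h1 : #{u : N | (c u).1 ∈ Y} ≤ Cardinal.lift.{1} k := by
    refine le_trans ?_ (Cardinal.lift_le.2 hk)
    rw [← ZFSet.cardinalMk_coe_sort]
    exact mk_le_of_injective (f := fun u => (⟨(c u.1).1, u.2⟩ : Y)) fun u w huw =>
      Subtype.ext (c.injective (Subtype.ext (congrArg (fun y : Y => y.1) huw)))
  have h2 := h _ h1
  choose g hg using fun t : Set.range (fun x => b x ∩ {u : N | (c u).1 ∈ Y}) => t.2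
  refine ⟨D.sep fun y => ∃ t, (e (g t)).1 = y, fun _ ha => (ZFSet.mem_sep.1 ha).1, ?_,
    fun x hx => ?_⟩
  · rw [← Cardinal.lift_le.{1}, ← ZFSet.cardinalMk_coe_sort]
    refine le_trans ?_ h2
    choose f hf using fun y : (D.sep fun y => ∃ t, (e (g t)).1 = y) => (ZFSet.mem_sep.1 y.2).2
    exact mk_le_of_injective (f := f) fun y y' hy =>
      Subtype.ext ((hf y).symm.trans (hy ▸ hf y'))
  · obtain ⟨i, hi⟩ := e.surjective ⟨x, hx⟩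
    have hix : (e i).1 = x := congrArg Subtype.val hi
    have h3 := hg ⟨_, i, rfl⟩
    refine ⟨(e (g ⟨_, i, rfl⟩)).1, ZFSet.mem_sep.2 ⟨(e _).2, _, rfl⟩, fun u hu => ?_⟩
    rw [hR, hR]
    constructor
    · rintro ⟨j, w, hw, h4, rfl⟩
      obtain rfl : j = i := e.injective (Subtype.ext (h4.trans hix.symm))
      exact ⟨_, w, ((Set.ext_iff.1 h3 w).2 ⟨hw, hu⟩).1, rfl, rfl⟩
    · rintro ⟨j, w, hw, h4, rfl⟩
      obtain rfl := e.injective (Subtype.ext h4)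
      exact ⟨i, w, ((Set.ext_iff.1 h3 w).1 ⟨hw, hu⟩).1, hix, rfl⟩

theorem nice_of_family {D M : ZFSet.{0}} {I N : Type 1} (e : I ≃ D) (c : N ↪ M)
    (b : I → Set N) (lev : N → Ordinal.{0}) (hb : Function.Injective b)
    (hne : ∀ x, (b x).Nonempty) (hch : ∀ x, ∀ u ∈ b x, ∀ w ∈ b x, lev u = lev w → u = w)
    (hdn : ∀ x x', ∀ u ∈ b x, u ∈ b x' → ∀ w ∈ b x, lev w < lev u → w ∈ b x')
    (h0 : ∀ Y : Set N, #Y ≤ ℵ₀ → #(Set.range fun x => b x ∩ Y) ≤ ℵ₀)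
    (h2 : ∀ Y : Set N, #Y ≤ ℵ_ 2 → #(Set.range fun x => b x ∩ Y) ≤ ℵ_ 2) :
    ∃ R E, R ⊆ D.prod M ∧ E ⊆ M.prod M ∧ Nice R E D M := by
  let R : ZFSet.{0} := (D.prod M).sep fun z => ∃ i, ∃ w ∈ b i, z = ZFSet.pair (e i).1 (c w).1
  let E : ZFSet.{0} := (M.prod M).sep fun z => ∃ u w, lev u < lev w ∧
    z = ZFSet.pair (c u).1 (c w).1
  have hR : ∀ x u, ZFSet.pair x u ∈ R ↔ ∃ i, ∃ w ∈ b i, (e i).1 = x ∧ (c w).1 = u := by
    intro x u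
    refine ZFSet.mem_sep.trans ⟨fun ⟨_, i, w, hw, h⟩ => ?_, ?_⟩
    · exact ⟨i, w, hw, (ZFSet.pair_inj.1 h).1.symm, (ZFSet.pair_inj.1 h).2.symm⟩
    · rintro ⟨i, w, hw, rfl, rfl⟩
      exact ⟨ZFSet.pair_mem_prod.2 ⟨(e i).2, (c w).2⟩, i, w, hw, rfl⟩
  have hE : ∀ x y, ZFSet.pair x y ∈ E ↔
      ∃ u w, lev u < lev w ∧ (c u).1 = x ∧ (c w).1 = y := by
    intro x y
    refine ZFSet.mem_sep.trans ⟨fun ⟨_, u, w, hw, h⟩ => ?_, ?_⟩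
    · exact ⟨u, w, hw, (ZFSet.pair_inj.1 h).1.symm, (ZFSet.pair_inj.1 h).2.symm⟩
    · rintro ⟨u, w, hw, rfl, rfl⟩
      exact ⟨ZFSet.pair_mem_prod.2 ⟨(c u).2, (c w).2⟩, u, w, hw, rfl⟩
  have hei : ∀ {i j}, (e i).1 = (e j).1 → i = j := fun h => e.injective (Subtype.ext h)
  have hci : ∀ {u w}, (c u).1 = (c w).1 → u = w := fun h => c.injective (Subtype.ext h)
  have hR' : ∀ i w, ZFSet.pair (e i).1 (c w).1 ∈ R ↔ w ∈ b i := by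
    intro i w
    refine (hR _ _).trans ⟨fun ⟨j, u, hu, h3, h4⟩ => ?_, fun h => ⟨i, w, h, rfl, rfl⟩⟩
    rw [← hei h3, ← hci h4]
    exact hu
  refine ⟨R, E, fun _ h => (ZFSet.mem_sep.1 h).1, fun _ h => (ZFSet.mem_sep.1 h).1,
    fun z hz => ZFSet.mem_prod.1 (ZFSet.mem_sep.1 hz).1, fun x hx => ?_,
    fun x hx x' hx' h => ?_, fun x u w hu hw => ?_, fun x x' u w h3 h4 h5 h6 => ?_,
    fun A hA hA0 => ?_, ztr_of_family e c b hR (by simpa using h0),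
    ztr_of_family e c b hR (by simpa using h2)⟩
  · obtain ⟨i, hi⟩ := e.surjective ⟨x, hx⟩
    obtain ⟨w, hw⟩ := hne i
    exact ⟨_, (hR _ _).2 ⟨i, w, hw, congrArg Subtype.val hi, rfl⟩⟩
  · obtain ⟨i, hi⟩ := e.surjective ⟨x, hx⟩
    obtain ⟨j, hj⟩ := e.surjective ⟨x', hx'⟩
    obtain rfl : (e i).1 = x := congrArg Subtype.val hi
    obtain rfl : (e j).1 = x' := congrArg Subtype.val hj
    rw [hb (Set.ext fun w => (hR' i w).symm.trans ((h _).trans (hR' j w)))]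
  · obtain ⟨i, u', hu', rfl, rfl⟩ := (hR _ _).1 hu
    obtain ⟨j, w', hw', h3, rfl⟩ := (hR _ _).1 hw
    obtain rfl := hei h3
    rcases lt_trichotomy (lev u') (lev w') with h | h | h
    · exact Or.inl ((hE _ _).2 ⟨_, _, h, rfl, rfl⟩)
    · exact Or.inr (Or.inl (by rw [hch _ _ hu' _ hw' h]))
    · exact Or.inr (Or.inr ((hE _ _).2 ⟨_, _, h, rfl, rfl⟩))
  · obtain ⟨w', u', h7, rfl, rfl⟩ := (hE _ _).1 h6
    obtain ⟨i, -, -, rfl, -⟩ := (hR _ _).1 h3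
    obtain ⟨j, -, -, rfl, -⟩ := (hR _ _).1 h4
    exact (hR' _ _).2 (hdn i j _ ((hR' _ _).1 h3) ((hR' _ _).1 h4) _ ((hR' _ _).1 h5) h7)
  · by_cases h : {u : N | (c u).1 ∈ A}.Nonempty
    · obtain ⟨m, hm, h3⟩ := (InvImage.wf lev wellFounded_lt).has_min _ h
      refine ⟨_, hm, fun w hw h4 => ?_⟩
      obtain ⟨u, m', h5, rfl, h6⟩ := (hE _ _).1 h4
      obtain rfl := hci h6
      exact h3 u hw h5
    · obtain ⟨a, ha⟩ := (ZFSet.eq_empty_or_nonempty A).resolve_left hA0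
      refine ⟨a, ha, fun w hw h4 => ?_⟩
      obtain ⟨u, -, -, rfl, -⟩ := (hE _ _).1 h4
      exact h ⟨u, hw⟩

theorem card_L_omega (o : Ordinal.{0}) : (L (ω_ o)).card = ℵ_ o := by
  refine le_antisymm ((card_L_le _).trans ?_) (card_omega o ▸ card_le_card_L _)
  rw [card_omega]
  exact max_le le_rfl (aleph0_le_aleph o)

/-- `exists_nice` from the conclusion of `kurepa`. -/
theorem exists_nice_of
    (h : ∃ (I N : Type 1) (b : I → Set N) (lev : N → Ordinal.{0}),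
      #I = ℵ_ 4 ∧ #N ≤ ℵ_ 3 ∧ Function.Injective b ∧ (∀ x, (b x).Nonempty) ∧
      (∀ x, ∀ u ∈ b x, ∀ w ∈ b x, lev u = lev w → u = w) ∧
      (∀ x x', ∀ u ∈ b x, u ∈ b x' → ∀ w ∈ b x, lev w < lev u → w ∈ b x') ∧
      (∀ Y : Set N, #Y ≤ ℵ₀ → #(Set.range fun x => b x ∩ Y) ≤ ℵ₀) ∧
      (∀ Y : Set N, #Y ≤ ℵ_ 2 → #(Set.range fun x => b x ∩ Y) ≤ ℵ_ 2)) :
    ∃ R E, R ⊆ L (ω_ 4) ∧ E ⊆ L (ω_ 4) ∧ Nice R E (L (ω_ 4)) (L (ω_ 3)) := by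
  obtain ⟨I, N, b, lev, hI, hN, hb, hne, hch, hdn, h0, h2⟩ := h
  obtain ⟨e⟩ : Nonempty (I ≃ L (ω_ 4)) := by
    rw [← Cardinal.eq, ZFSet.cardinalMk_coe_sort, card_L_omega, hI]
    simp
  obtain ⟨c⟩ : Nonempty (N ↪ L (ω_ 3)) := by
    rw [← Cardinal.le_def, ZFSet.cardinalMk_coe_sort, card_L_omega]
    simpa using hN
  obtain ⟨R, E, hR, hE, hn⟩ := nice_of_family e c b lev hb hne hch hdn h0 h2
  have h34 : L (ω_ 3) ⊆ L (ω_ 4) :=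
    L_mono (omega_le_omega.2 (by exact_mod_cast (by norm_num : (3 : ℕ) ≤ 4)))
  refine ⟨R, E, fun z hz => ?_, fun z hz => ?_, hn⟩
  · obtain ⟨x, hx, u, hu, rfl⟩ := ZFSet.mem_prod.1 (hR hz)
    exact pair_mem_L (isSuccLimit_omega 4) hx (h34 hu)
  · obtain ⟨x, hx, u, hu, rfl⟩ := ZFSet.mem_prod.1 (hE hz)
    exact pair_mem_L (isSuccLimit_omega 4) (h34 hx) (h34 hu)

end Pool.Agent.Lib.MP_0a8963_lc
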